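import Pool.Agent.Work.MP_eae946_nt.Defs

namespace Pool.Agent.Work.MP_eae946_nt

open NumberField

variable {K : Type*} [Field K] [NumberField K]

/-- `γ ^ 2` is totally at most `A`. -/
def Dom (γ A : K) : Prop := ∀ σ : K →+* ℝ, σ γ ^ 2 ≤ σ A

/-- no nonzero algebraic integer has its square totally at most `A`. -/
def PP (A : K) : Prop := ∀ γ : K, IsIntegral ℤ γ → Dom γ A → γ = 0

section TotallyReal

variable [IsTotallyReal K]

omit [NumberField K] in
theorem exists_real_of_complex (φ : K →+* ℂ) : ∃ σ : K →+* ℝ, ∀ x, ((σ x : ℝ) : ℂ) = φ x := by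
  have h := IsTotallyReal.complexEmbedding_isReal φ
  exact ⟨h.embedding, fun x => h.coe_embedding_apply x⟩

variable (K) in
theorem exists_real : Nonempty (K →+* ℝ) := by
  obtain ⟨φ⟩ : Nonempty (K →+* ℂ) := inferInstance
  obtain ⟨σ, -⟩ := exists_real_of_complex φ
  exact ⟨σ⟩

theorem kronecker {γ : K} (hγ : IsIntegral ℤ γ) (h : Dom γ 1) : γ = 0 ∨ γ = 1 ∨ γ = -1 := by
  by_cases h0 : γ = 0
  · exact Or.inl h0
  right
  obtain ⟨n, hn, hx⟩ := Embeddings.pow_eq_one_of_norm_le_one K ℂ h0 hγ (by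
    intro φ
    obtain ⟨σ, hσ⟩ := exists_real_of_complex φ
    rw [← hσ, Complex.norm_real, Real.norm_eq_abs]
    have := h σ
    rw [map_one] at this
    exact abs_le_one_iff_mul_self_le_one.mpr (by nlinarith))
  obtain ⟨σ⟩ := exists_real K
  have h1 : σ γ ^ n = 1 := by rw [← map_pow, hx, map_one]
  have h2 : |σ γ| = 1 := by
    have : |σ γ| ^ n = 1 := by rw [← abs_pow, h1, abs_one]
    exact (pow_eq_one_iff_of_nonneg (abs_nonneg _) hn.ne').mp this
  rcases (abs_eq zero_le_one).mp h2 with h3 | h3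
  · left; exact σ.injective (by rw [h3, map_one])
  · right; exact σ.injective (by rw [h3, map_neg, map_one])

theorem eq_zero_of_lt_one {y : K} (hy : IsIntegral ℤ y) (h0 : ∀ σ : K →+* ℝ, 0 ≤ σ y)
    (h1 : ∀ σ : K →+* ℝ, σ y < 1) : y = 0 := by
  have hd : Dom y 1 := by
    intro σ
    rw [map_one]
    nlinarith [h0 σ, h1 σ]
  obtain ⟨σ⟩ := exists_real K
  rcases kronecker hy hd with h | h | h
  · exact h
  · have := h1 σ; rw [h, map_one] at this; exact absurd this (lt_irrefl _)
  · have := h0 σ; rw [h, map_neg, map_one] at this; norm_num at this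

end TotallyReal

section Lattice

variable {V : Type*} [AddCommGroup V] [Module K V]

/-- the data of a universal classical totally positive definite lattice of rank `3` -/
structure Lat (K : Type*) [Field K] [NumberField K] (V : Type*) [AddCommGroup V] [Module K V]
    (B : V →ₗ[K] V →ₗ[K] K) (L : AddSubgroup V) : Prop where
  symm : ∀ v w, B v w = B w v
  pos : ∀ v, v ≠ 0 → ∀ σ : K →+* ℝ, 0 < σ (B v v)
  integral : ∀ v ∈ L, ∀ w ∈ L, IsIntegral ℤ (B v w)
  universal : ∀ α : K, IsIntegral ℤ α → (∀ σ : K →+* ℝ, 0 < σ α) → ∃ v ∈ L, B v v = α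
  dim : Module.finrank K V = 3

variable {B : V →ₗ[K] V →ₗ[K] K} {L : AddSubgroup V}

theorem Lat.nonneg (h : Lat K V B L) (v : V) (σ : K →+* ℝ) : 0 ≤ σ (B v v) := by
  by_cases hv : v = 0
  · simp [hv]
  · exact (h.pos v hv σ).le

theorem Lat.cs (h : Lat K V B L) (v w : V) : Dom (B v w) (B v v * B w w) := by
  intro σ
  by_cases hw : w = 0
  · simp [hw]
  have h1 := h.nonneg (B w w • v - B v w • w) σ
  have h2 : B (B w w • v - B v w • w) (B w w • v - B v w • w)
      = B w w * (B v v * B w w - B v w ^ 2) := by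
    simp only [map_sub, map_smul, LinearMap.sub_apply, LinearMap.smul_apply, smul_eq_mul]
    rw [h.symm w v]
    ring
  rw [h2, map_mul, map_sub, map_mul, map_pow] at h1
  have h3 := h.pos w hw σ
  have h4 := nonneg_of_mul_nonneg_right h1 h3
  rw [map_mul]
  linarith

theorem Lat.orth (h : Lat K V B L) {v w : V} (hv : v ∈ L) (hw : w ∈ L)
    (hp : PP (B v v * B w w)) : B v w = 0 :=
  hp _ (h.integral v hv w hw) (h.cs v w)

theorem Lat.linInd (h : Lat K V B L) {ι : Type*} [Fintype ι] (v : ι → V)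
    (h0 : ∀ i, v i ≠ 0) (ho : ∀ i j, i ≠ j → B (v i) (v j) = 0) [Nonempty (K →+* ℝ)] :
    LinearIndependent K v := by
  classical
  rw [Fintype.linearIndependent_iff]
  intro g hg i
  have h1 : B (∑ j, g j • v j) (v i) = 0 := by rw [hg]; simp
  simp only [map_sum, map_smul, LinearMap.sum_apply, LinearMap.smul_apply, smul_eq_mul] at h1
  rw [Finset.sum_eq_single i] at h1
  · obtain ⟨σ⟩ := ‹Nonempty (K →+* ℝ)›
    have h2 : B (v i) (v i) ≠ 0 := by
      intro h3
      have := h.pos (v i) (h0 i) σ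
      rw [h3, map_zero] at this
      exact lt_irrefl _ this
    exact (mul_eq_zero.mp h1).resolve_right h2
  · intro j _ hj
    rw [ho j i hj, mul_zero]
  · intro hi
    exact absurd (Finset.mem_univ i) hi

theorem Lat.no_four (h : Lat K V B L) [Nonempty (K →+* ℝ)] (v : Fin 4 → V)
    (h0 : ∀ i, v i ≠ 0) (ho : ∀ i j, i ≠ j → B (v i) (v j) = 0) : False := by
  have h1 := h.linInd v h0 ho
  have : Module.Finite K V := Module.finite_of_finrank_pos (by rw [h.dim]; norm_num)
  have h2 := h1.fintype_card_le_finrank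
  rw [h.dim, Fintype.card_fin] at h2
  omega

end Lattice

/-- the lattice attached to a Gram matrix -/
theorem lat_of_gram {A : Matrix (Fin 3) (Fin 3) (𝓞 K)} (hA : IsUniversalClassicalTernary K A) :
    ∃ (B : (Fin 3 → K) →ₗ[K] (Fin 3 → K) →ₗ[K] K) (L : AddSubgroup (Fin 3 → K)),
      Lat K (Fin 3 → K) B L := by
  let A' : Matrix (Fin 3) (Fin 3) K := A.map (algebraMap (𝓞 K) K)
  let B : (Fin 3 → K) →ₗ[K] (Fin 3 → K) →ₗ[K] K := Matrix.toLinearMap₂' K A'
  have hB : ∀ v w, B v w = ∑ i, ∑ j, (A i j : K) * v i * w j := by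
    intro v w
    simp only [B, Matrix.toLinearMap₂'_apply, A', Matrix.map_apply, smul_eq_mul]
    refine Finset.sum_congr rfl fun i _ => Finset.sum_congr rfl fun j _ => ?_
    ring
  let L : AddSubgroup (Fin 3 → K) :=
    { carrier := {v | ∀ i, IsIntegral ℤ (v i)}
      zero_mem' := fun i => by simpa using isIntegral_zero
      add_mem' := fun {a b} ha hb i => (ha i).add (hb i)
      neg_mem' := fun {a} ha i => (ha i).neg }
  refine ⟨B, L, ?_, ?_, ?_, ?_, ?_⟩
  · intro v w
    rw [hB, hB, Finset.sum_comm]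
    refine Finset.sum_congr rfl fun i _ => Finset.sum_congr rfl fun j _ => ?_
    rw [hA.symm.apply i j]
    ring
  · intro v hv σ
    rw [hB]
    exact hA.posDef v hv σ
  · intro v hv w hw
    rw [hB]
    refine IsIntegral.sum _ fun i _ => IsIntegral.sum _ fun j _ => ?_
    exact ((A i j).isIntegral_coe.mul (hv i)).mul (hw j)
  · intro α hα hpos
    obtain ⟨v, hv⟩ := hA.universal ⟨α, hα⟩ hpos
    refine ⟨fun i => (v i : K), fun i => (v i).isIntegral_coe, ?_⟩
    rw [hB]
    have := congrArg (algebraMap (𝓞 K) K) hv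
    simp only [map_sum, map_mul] at this
    exact this
  · simp

end Pool.Agent.Work.MP_eae946_nt
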