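import Mathlib

namespace Pool.Agent.Work.MP_eae946_nt

open NumberField

/-- `A` is the Gram matrix of a classical ternary quadratic form
`Q(x) = ∑ i, ∑ j, A i j * x i * x j` over the ring of integers of `K` which is totally positive
definite and universal (it represents every totally positive algebraic integer of `K`). -/
structure IsUniversalClassicalTernary (K : Type*) [Field K] [NumberField K]
    (A : Matrix (Fin 3) (Fin 3) (𝓞 K)) : Prop where
  symm : A.IsSymm
  posDef : ∀ v : Fin 3 → K, v ≠ 0 → ∀ σ : K →+* ℝ,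
    0 < σ (∑ i, ∑ j, (A i j : K) * v i * v j)
  universal : ∀ α : 𝓞 K, (∀ σ : K →+* ℝ, 0 < σ (α : K)) →
    ∃ v : Fin 3 → 𝓞 K, ∑ i, ∑ j, A i j * v i * v j = α

/-- the discriminant of `ℚ(√m)` for a squarefree integer `m ≠ 1`. -/
def fdisc (m : ℤ) : ℤ := if m % 4 = 1 then m else 4 * m

end Pool.Agent.Work.MP_eae946_nt
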