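import Pool.Agent.Work.MP_eae946_nt.Multi
import Pool.Agent.Work.MP_eae946_nt.Defs

namespace Pool.Agent.Work.MP_eae946_nt

variable {K : Type*} [Field K] [NumberField K] {k : ℕ}

theorem int_of_rat_integral {x : K} {q : ℚ} (hx : x = q) (hi : IsIntegral ℤ x) :
    ∃ n : ℤ, q = n := by
  have h1 : IsIntegral ℤ (algebraMap ℚ K q) := by
    rw [hx] at hi; simpa using hi
  have h2 : IsIntegral ℤ q := (isIntegral_algebraMap_iff (algebraMap ℚ K).injective).mp h1
  obtain ⟨n, hn⟩ := IsIntegrallyClosed.isIntegral_iff.mp h2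
  exact ⟨n, by simpa using hn.symm⟩

theorem rat_sq_mul_squarefree {q : ℚ} {m n : ℤ} (hm : Squarefree m) (h : q ^ 2 * m = n) :
    ∃ z : ℤ, q = z := by
  have hd : (q.den : ℤ) ^ 2 ∣ m := by
    have h1 : (q.num : ℚ) ^ 2 * m = n * (q.den : ℚ) ^ 2 := by
      have h2 : (q.den : ℚ) ≠ 0 := by exact_mod_cast q.den_nz
      have h3 : q = q.num / q.den := (Rat.num_div_den q).symm
      rw [h3, div_pow] at h
      field_simp at h
      linarith
    have h2 : q.num ^ 2 * m = n * (q.den : ℤ) ^ 2 := by exact_mod_cast h1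
    have h3 : (q.den : ℤ) ^ 2 ∣ q.num ^ 2 * m := Dvd.intro_left n h2.symm
    have h4 : IsCoprime ((q.den : ℤ) ^ 2) (q.num ^ 2) := by
      apply IsCoprime.pow
      rw [Int.isCoprime_iff_gcd_eq_one, Int.gcd_comm]
      have := q.reduced
      rw [Int.gcd]
      simpa using this
    exact h4.dvd_of_dvd_mul_left h3
  have hu : IsUnit (q.den : ℤ) := hm _ (by rw [← sq]; exact hd)
  have h1 : q.den = 1 := by
    have := Int.isUnit_iff.mp hu
    omega
  exact ⟨q.num, by
    conv_lhs => rw [← Rat.num_div_den q, h1]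
    simp⟩

theorem int_of_sq_mul_squarefree {y : K} {q : ℚ} (hy : y = q) {m : ℤ} (hm : Squarefree m)
    (hi : IsIntegral ℤ (y ^ 2 * m)) : ∃ z : ℤ, y = z := by
  obtain ⟨n, hn⟩ := int_of_rat_integral (x := y ^ 2 * m) (q := q ^ 2 * m)
    (by rw [hy]; push_cast; ring) hi
  obtain ⟨z, hz⟩ := rat_sq_mul_squarefree hm hn
  exact ⟨z, by rw [hy, hz]; simp⟩

section

variable (s : Fin k → K) (m : Fin k → ℤ)

/-- `x` is fixed by every automorphism fixing the `s l`, `l ∈ T`. -/
def Fix (T : Set (Fin k)) (x : K) : Prop :=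
  ∀ τ : K ≃ₐ[ℚ] K, (∀ l ∈ T, τ (s l) = s l) → τ x = x

/-- generator used for the ring of integers of `ℚ(√mᵢ)`. -/
noncomputable def ug (i : Fin k) : K := if m i % 4 = 1 then (1 + s i) / 2 else s i

/-- difference of the two conjugates of `ug`. -/
noncomputable def Dg (i : Fin k) : K := if m i % 4 = 1 then s i else 2 * s i

variable {s m} (hs : ∀ i, s i ^ 2 = m i)
  (hgen : IntermediateField.adjoin ℚ (Set.range s) = ⊤)

include hs

omit [NumberField K] in
theorem s_int (i : Fin k) : IsIntegral ℤ (s i) := by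
  apply IsIntegral.of_pow (n := 2) (by norm_num)
  rw [hs]; exact isIntegral_algebraMap (R := ℤ) (x := m i)

omit [NumberField K] in
theorem Dg_sq (i : Fin k) : Dg s m i ^ 2 = fdisc (m i) := by
  unfold Dg fdisc
  split_ifs with h
  · exact hs i
  · rw [mul_pow, hs i]; push_cast; ring

omit [NumberField K] in
theorem Dg_int (i : Fin k) : IsIntegral ℤ (Dg s m i) := by
  apply IsIntegral.of_pow (n := 2) (by norm_num)
  rw [Dg_sq hs]; exact isIntegral_algebraMap (R := ℤ) (x := fdisc (m i))

theorem ug_int (i : Fin k) : IsIntegral ℤ (ug s m i) := by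
  unfold ug
  split_ifs with h
  · refine ⟨Polynomial.X ^ 2 + (Polynomial.C (-1) * Polynomial.X +
      Polynomial.C (-(m i / 4))), ?_, ?_⟩
    · monicity!
    · simp only [Polynomial.eval₂_add, Polynomial.eval₂_mul, Polynomial.eval₂_X_pow,
        Polynomial.eval₂_X, Polynomial.eval₂_C]
      have h1 : (m i : K) = 4 * ((m i / 4 : ℤ) : K) + 1 := by
        have : m i = 4 * (m i / 4) + 1 := by omega
        exact_mod_cast this
      have h2 := hs i
      rw [h1] at h2
      simp only [eq_intCast, Int.cast_neg, Int.cast_one]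
      linear_combination h2 / 4
  · exact s_int hs i

omit hs in
theorem ug_aut {τ : K ≃ₐ[ℚ] K} {i : Fin k} (h : τ (s i) = s i) : τ (ug s m i) = ug s m i := by
  have h2 : τ (2 : K) = 2 := map_ofNat τ 2
  unfold ug
  split_ifs with h1
  · simp [h, h2]
  · exact h

omit hs in
theorem Dg_aut {τ : K ≃ₐ[ℚ] K} {i : Fin k} (h : τ (s i) = s i) : τ (Dg s m i) = Dg s m i := by
  have h2 : τ (2 : K) = 2 := map_ofNat τ 2
  unfold Dg
  split_ifs with h1
  · exact h
  · simp [h, h2]

omit hs in
theorem Dg_aut_neg {τ : K ≃ₐ[ℚ] K} {i : Fin k} (h : τ (s i) = -s i) :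
    τ (Dg s m i) = -Dg s m i := by
  have h2 : τ (2 : K) = 2 := map_ofNat τ 2
  unfold Dg
  split_ifs with h1
  · exact h
  · simp [h, h2]

omit hs in
theorem ug_aut_neg {τ : K ≃ₐ[ℚ] K} {i : Fin k} (h : τ (s i) = -s i) :
    ug s m i - τ (ug s m i) = Dg s m i := by
  have h2 : τ (2 : K) = 2 := map_ofNat τ 2
  unfold ug Dg
  split_ifs with h1
  · simp [h, h2]; ring
  · rw [h]; ring

include hgen

theorem aut_comm (τ τ' : K ≃ₐ[ℚ] K) (x : K) : τ (τ' x) = τ' (τ x) := by
  have : τ * τ' = τ' * τ := by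
    apply aut_eq_of_gen hgen
    intro i
    rw [AlgEquiv.mul_apply, AlgEquiv.mul_apply]
    rcases aut_sq (hs i) τ with h | h <;> rcases aut_sq (hs i) τ' with h' | h' <;>
      simp [h, h']
  exact DFunLike.congr_fun this x

theorem aut_invol (τ : K ≃ₐ[ℚ] K) (x : K) : τ (τ x) = x := by
  have : τ * τ = 1 := by
    apply aut_eq_of_gen hgen
    intro i
    rw [AlgEquiv.mul_apply]
    rcases aut_sq (hs i) τ with h | h <;> simp [h]
  exact DFunLike.congr_fun this x

/-- if `τᵢ` flips only `s i`, and `x` is fixed by all `τ` fixing the `s l`, `l ∈ insert i T`,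
then any other `τ` fixing `s l`, `l ∈ T` acts on `x` as `τᵢ`. -/
theorem Fix.flip {T : Set (Fin k)} {i : Fin k} {x : K} (hx : Fix s (insert i T) x)
    {τi : K ≃ₐ[ℚ] K} (hi : τi (s i) = -s i) (hi' : ∀ l, l ≠ i → τi (s l) = s l)
    (hiT : i ∉ T) {τ : K ≃ₐ[ℚ] K} (hτ : ∀ l ∈ T, τ (s l) = s l) :
    τ x = x ∨ (τ (s i) = -s i ∧ τ x = τi x) := by
  rcases aut_sq (hs i) τ with h | h
  · left
    apply hx
    intro l hl
    rcases hl with rfl | hl
    · exact h
    · exact hτ l hl
  · right
    refine ⟨h, ?_⟩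
    have h1 : (τ * τi) x = x := by
      apply hx
      intro l hl
      rw [AlgEquiv.mul_apply]
      rcases hl with rfl | hl
      · rw [hi, map_neg, h, neg_neg]
      · rw [hi' l (fun h => hiT (h ▸ hl)), hτ l hl]
    rw [AlgEquiv.mul_apply] at h1
    have h2 := congrArg τ h1
    rw [aut_invol hs hgen] at h2
    exact h2.symm

theorem fix_rat {x : K} (hx : ∀ τ : K ≃ₐ[ℚ] K, τ x = x) : ∃ q : ℚ, x = q := by
  have hG := isGalois_of_sq hs hgen
  obtain ⟨q, hq⟩ := (IsGalois.mem_range_algebraMap_iff_fixed (F := ℚ) x).mpr hx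
  exact ⟨q, by rw [← hq]; simp⟩

/-- the quadratic base case -/
theorem base_int {j : Fin k} (hm : Squarefree (m j)) {x : K} (hx : Fix s {j} x)
    (hi : IsIntegral ℤ x) {τj : K ≃ₐ[ℚ] K} (hj : τj (s j) = -s j)
    (hj' : ∀ l, l ≠ j → τj (s l) = s l) :
    IsIntegral ℤ ((x - τj x) / Dg s m j) := by
  have hmj : m j ≠ 0 := hm.ne_zero
  have hsj : s j ≠ 0 := by
    intro h
    have := hs j
    rw [h] at this
    apply hmj
    have h2 : (m j : K) = 0 := by rw [← this]; ring
    exact_mod_cast h2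
  have hall : ∀ τ : K ≃ₐ[ℚ] K, τ x = x ∨ (τ (s j) = -s j ∧ τ x = τj x) := by
    intro τ
    exact Fix.flip hs hgen (T := ∅) (by simpa using hx) hj hj' (by simp) (by simp)
  have hτjj : τj (τj x) = x := aut_invol hs hgen _ _
  have hcomm : ∀ τ : K ≃ₐ[ℚ] K, τ (τj x) = τj (τ x) := fun τ => aut_comm hs hgen _ _ _
  obtain ⟨q, hq⟩ := fix_rat hs hgen (x := (x - τj x) / s j) (by
    intro τ
    rcases aut_sq (hs j) τ with h | h
    · have h1 : τ x = x := hx τ (by simpa using h)
      rw [map_div₀, map_sub, hcomm, h1, h]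
    · rcases hall τ with h1 | ⟨-, h1⟩
      · have h3 : (τ * τj) x = x := by
          apply hx
          intro l hl
          rw [AlgEquiv.mul_apply]
          have : l = j := by simpa using hl
          rw [this, hj, map_neg, h, neg_neg]
        rw [AlgEquiv.mul_apply, hcomm, h1] at h3
        rw [map_div₀, map_sub, hcomm, h1, h3, h]
        simp
      · rw [map_div₀, map_sub, hcomm, h1, hτjj, h]
        field_simp
        ring)
  have hyi : IsIntegral ℤ (((x - τj x) / s j) ^ 2 * m j) := by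
    have : ((x - τj x) / s j) ^ 2 * m j = (x - τj x) ^ 2 := by
      rw [← hs j]; field_simp
    rw [this]
    exact (hi.sub (hi.map (τj.toAlgHom.restrictScalars ℤ))).pow 2
  obtain ⟨y, hy⟩ := int_of_sq_mul_squarefree hq hm hyi
  unfold Dg
  split_ifs with h4
  · rw [hy]; exact isIntegral_algebraMap (R := ℤ) (x := y)
  · -- need y even
    obtain ⟨q2, hq2⟩ := fix_rat hs hgen (x := x + τj x) (by
      intro τ
      rcases hall τ with h1 | ⟨-, h1⟩
      · rw [map_add, hcomm, h1]
      · rw [map_add, hcomm, h1, hτjj, add_comm])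
    have hi2 : IsIntegral ℤ (τj x) := hi.map (τj.toAlgHom.restrictScalars ℤ)
    obtain ⟨u, hu⟩ := int_of_rat_integral hq2 (hi.add hi2)
    have hu' : x + τj x = u := by rw [hq2, hu]; simp
    have hy' : x - τj x = y * s j := by rw [← hy]; field_simp
    have hprod : x * τj x = ((u ^ 2 - m j * y ^ 2 : ℤ) / 4 : ℚ) := by
      push_cast
      rw [← hs j, ← hu']
      have : (x - τj x) ^ 2 = (y * s j) ^ 2 := by rw [hy']
      linear_combination -this / 4
    obtain ⟨v, hv⟩ := int_of_rat_integral hprod (hi.mul hi2)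
    have hv' : u ^ 2 - m j * y ^ 2 = 4 * v := by
      have : ((u ^ 2 - m j * y ^ 2 : ℤ) : ℚ) = 4 * v := by
        rw [← hv]; ring
      exact_mod_cast this
    have hev : Even y := by
      by_contra hodd
      rw [Int.not_even_iff_odd] at hodd
      obtain ⟨y', rfl⟩ := hodd
      have hm4 : m j % 4 = 2 ∨ m j % 4 = 3 := by
        have : ¬ (4 : ℤ) ∣ m j := by
          intro h
          have := hm 2 (by norm_num; exact h)
          exact absurd this (by decide)
        omega
      have e1 : (u ^ 2 - m j * (2 * y' + 1) ^ 2) % 4 = 0 := by omega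
      have e2 : (2 * y' + 1) ^ 2 = 4 * (y' ^ 2 + y') + 1 := by ring
      have e3 : u ^ 2 % 4 = 0 ∨ u ^ 2 % 4 = 1 := by
        rcases Int.even_or_odd' u with ⟨c, hc | hc⟩
        · left; rw [hc]; ring_nf; omega
        · right; rw [hc]; ring_nf; omega
      rw [e2] at e1
      have e4 : m j * (4 * (y' ^ 2 + y') + 1) = 4 * (m j * (y' ^ 2 + y')) + m j := by ring
      rw [e4] at e1
      omega
    obtain ⟨z, hz⟩ := hev
    have : (x - τj x) / (2 * s j) = z := by
      rw [hy', hz]; push_cast; field_simp; ring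
    rw [this]
    exact isIntegral_algebraMap (R := ℤ) (x := z)

theorem main_int {j : Fin k} (hm : Squarefree (m j)) {τj : K ≃ₐ[ℚ] K} (hj : τj (s j) = -s j)
    (hj' : ∀ l, l ≠ j → τj (s l) = s l)
    (haut : ∀ i, ∃ τ : K ≃ₐ[ℚ] K, τ (s i) = -s i ∧ ∀ l, l ≠ i → τ (s l) = s l)
    (T : Finset (Fin k)) (hT : j ∉ T) : ∀ x : K, Fix s (insert j (T : Set (Fin k))) x →
    IsIntegral ℤ x → IsIntegral ℤ (((∏ i ∈ T, fdisc (m i) : ℤ) : K) *
      ((x - τj x) / Dg s m j)) := by
  induction T using Finset.induction_on with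
  | empty =>
    intro x hx hi
    simp only [Finset.prod_empty, Int.cast_one, one_mul]
    exact base_int hs hgen hm (by simpa using hx) hi hj hj'
  | insert i T hiT ih =>
    intro x hx hi
    have hjT : j ∉ T := fun h => hT (Finset.mem_insert_of_mem h)
    have hji : j ≠ i := fun h => hT (h ▸ Finset.mem_insert_self _ _)
    obtain ⟨τi, hi1, hi2⟩ := haut i
    have hxi : IsIntegral ℤ (τi x) := hi.map (τi.toAlgHom.restrictScalars ℤ)
    set x1 := Dg s m i * (x - τi x) with hx1
    set x0 := (fdisc (m i) : K) * x - x1 * ug s m i with hx0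
    have i1 : IsIntegral ℤ x1 := (Dg_int hs i).mul (hi.sub hxi)
    have i0 : IsIntegral ℤ x0 :=
      ((isIntegral_algebraMap (R := ℤ) (x := fdisc (m i))).mul hi).sub (i1.mul (ug_int hs i))
    have hfl : ∀ τ : K ≃ₐ[ℚ] K, (∀ l ∈ insert j (T : Set (Fin k)), τ (s l) = s l) →
        (τ (s i) = s i ∧ τ x = x) ∨ (τ (s i) = -s i ∧ τ x = τi x) := by
      intro τ hτ
      rcases aut_sq (hs i) τ with h | h
      · left
        refine ⟨h, hx τ ?_⟩
        intro l hl
        rcases hl with rfl | hl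
        · exact hτ _ (Set.mem_insert _ _)
        · rw [Finset.coe_insert] at hl
          rcases hl with rfl | hl
          · exact h
          · exact hτ l (Set.mem_insert_of_mem _ hl)
      · right
        refine ⟨h, ?_⟩
        have h1 : (τ * τi) x = x := by
          apply hx
          intro l hl
          rw [AlgEquiv.mul_apply]
          rcases hl with rfl | hl
          · rw [hi2 _ hji, hτ _ (Set.mem_insert _ _)]
          · rw [Finset.coe_insert] at hl
            rcases hl with rfl | hl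
            · rw [hi1, map_neg, h, neg_neg]
            · rw [hi2 l (fun h => hiT (by rw [← h]; exact hl)),
                hτ l (Set.mem_insert_of_mem _ hl)]
        rw [AlgEquiv.mul_apply] at h1
        have h2 := congrArg τ h1
        rw [aut_invol hs hgen] at h2
        exact h2.symm
    have hx1f : Fix s (insert j (T : Set (Fin k))) x1 := by
      intro τ hτ
      rcases hfl τ hτ with ⟨h, h'⟩ | ⟨h, h'⟩
      · rw [hx1, map_mul, map_sub, aut_comm hs hgen τ τi, h', Dg_aut h]
      · rw [hx1, map_mul, map_sub, aut_comm hs hgen τ τi, h', Dg_aut_neg h,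
          aut_invol hs hgen]
        ring
    have hu2 : ∀ τ : K ≃ₐ[ℚ] K, τ (s i) = -s i →
        τ (ug s m i) = ug s m i - Dg s m i := by
      intro τ h
      have := ug_aut_neg (m := m) h
      linear_combination -this
    have hx0f : Fix s (insert j (T : Set (Fin k))) x0 := by
      intro τ hτ
      have h1 := hx1f τ hτ
      rcases hfl τ hτ with ⟨h, h'⟩ | ⟨h, h'⟩
      · rw [hx0, map_sub, map_mul, map_mul, h1, h', ug_aut h, map_intCast]
      · rw [hx0, map_sub, map_mul, map_mul, h1, h', hu2 τ h, map_intCast]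
        have h3 := Dg_sq hs (m := m) i
        rw [hx1]
        linear_combination (x - τi x) * h3
    have r0 := ih hjT x0 hx0f i0
    have r1 := ih hjT x1 hx1f i1
    have hug : τj (ug s m i) = ug s m i := ug_aut (hj' i (Ne.symm hji))
    have hfin : ((∏ l ∈ insert i T, fdisc (m l) : ℤ) : K) * ((x - τj x) / Dg s m j)
        = ((∏ l ∈ T, fdisc (m l) : ℤ) : K) * ((x0 - τj x0) / Dg s m j)
          + ((∏ l ∈ T, fdisc (m l) : ℤ) : K) * ((x1 - τj x1) / Dg s m j) * ug s m i := by
      rw [Finset.prod_insert hiT]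
      have h5 : (fdisc (m i) : K) * x = x0 + x1 * ug s m i := by rw [hx0]; ring
      have h6 : (fdisc (m i) : K) * τj x = τj x0 + τj x1 * ug s m i := by
        have := congrArg τj h5
        rw [map_mul, map_add, map_mul, map_intCast, hug] at this
        exact this
      have h7 : (fdisc (m i) : K) * (x - τj x) = (x0 - τj x0) + (x1 - τj x1) * ug s m i := by
        linear_combination h5 - h6
      push_cast
      calc (fdisc (m i) : K) * (∏ l ∈ T, (fdisc (m l) : K)) * ((x - τj x) / Dg s m j)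
          = (∏ l ∈ T, (fdisc (m l) : K)) * (((fdisc (m i) : K) * (x - τj x)) / Dg s m j) := by
            ring
        _ = _ := by rw [h7]; ring
    rw [hfin]
    exact r0.add (r1.mul (ug_int hs i))

theorem coprime_int {j : Fin k} (hm : Squarefree (m j)) {τj : K ≃ₐ[ℚ] K}
    (hj : τj (s j) = -s j) (hj' : ∀ l, l ≠ j → τj (s l) = s l)
    (haut : ∀ i, ∃ τ : K ≃ₐ[ℚ] K, τ (s i) = -s i ∧ ∀ l, l ≠ i → τ (s l) = s l)
    (hcop : ∀ i, i ≠ j → IsCoprime (fdisc (m j)) (fdisc (m i))) {x : K}
    (hi : IsIntegral ℤ x) : IsIntegral ℤ ((x - τj x) / Dg s m j) := by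
  classical
  have h1 := main_int hs hgen hm hj hj' haut (Finset.univ.erase j) (by simp) x (by
    intro τ hτ
    have : τ = 1 := by
      apply aut_eq_of_gen hgen
      intro l
      rw [AlgEquiv.one_apply]
      apply hτ
      by_cases h : l = j
      · left; exact h
      · right; simp [h]
    rw [this]; rfl) hi
  have h2 : IsIntegral ℤ ((fdisc (m j) : K) * ((x - τj x) / Dg s m j)) := by
    have hD0 : Dg s m j ≠ 0 := by
      intro h
      have := Dg_sq hs (m := m) j
      rw [h] at this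
      have h3 : (fdisc (m j) : K) = 0 := by rw [← this]; ring
      have h4 : fdisc (m j) = 0 := by exact_mod_cast h3
      unfold fdisc at h4
      split_ifs at h4
      · exact hm.ne_zero h4
      · exact hm.ne_zero (by omega)
    have h3 : (fdisc (m j) : K) * ((x - τj x) / Dg s m j) = Dg s m j * (x - τj x) := by
      rw [← Dg_sq hs j]; field_simp
    rw [h3]
    exact (Dg_int hs j).mul (hi.sub (hi.map (τj.toAlgHom.restrictScalars ℤ)))
  have hc : IsCoprime (fdisc (m j)) (∏ i ∈ Finset.univ.erase j, fdisc (m i)) :=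
    IsCoprime.prod_right fun i hi' => hcop i (Finset.ne_of_mem_erase hi')
  obtain ⟨a, b, hab⟩ := hc
  have h4 : (x - τj x) / Dg s m j = (a : K) * ((fdisc (m j) : K) * ((x - τj x) / Dg s m j))
      + (b : K) * (((∏ i ∈ Finset.univ.erase j, fdisc (m i) : ℤ) : K) *
        ((x - τj x) / Dg s m j)) := by
    have h5 : (a : K) * (fdisc (m j) : K) +
        (b : K) * ((∏ i ∈ Finset.univ.erase j, fdisc (m i) : ℤ) : K) = 1 := by
      exact_mod_cast congrArg (Int.cast : ℤ → K) hab
    linear_combination -((x - τj x) / Dg s m j) * h5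
  rw [h4]
  exact ((isIntegral_algebraMap (R := ℤ) (x := a)).mul h2).add
    ((isIntegral_algebraMap (R := ℤ) (x := b)).mul h1)

end

end Pool.Agent.Work.MP_eae946_nt
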