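import Pool.Agent.Work.MP_eae946_nt.Golden
import Pool.Agent.Work.MP_eae946_nt.Integral

namespace Pool.Agent.Work.MP_eae946_nt

open NumberField

theorem exists_r {t c : ℤ} (hc : 1 ≤ c) (hct : c ≤ t) (h1 : c = 1 → Odd t ∧ 3 ≤ t) :
    ∃ r : ℤ, 1 ≤ r ∧ 0 < 1 + t * r - c * r ^ 2 ∧ 0 < 4 * c * r ^ 2 - 2 * t * r - 1 ∧
      (c = 1 → 2 * r = t + 1) := by
  by_cases hc1 : c = 1
  · obtain ⟨⟨s, hs⟩, ht⟩ := h1 hc1
    refine ⟨s + 1, by omega, ?_, ?_, fun _ => by omega⟩
    · subst hs; subst hc1; nlinarith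
    · subst hs; subst hc1; nlinarith
  · have hc2 : 2 ≤ c := by omega
    let P : ℕ → Prop := fun r => 0 < 1 + t * (r : ℤ) - c * (r : ℤ) ^ 2
    have hP1 : P 1 := by simp only [P]; push_cast; linarith
    obtain ⟨T, hT⟩ : ∃ T : ℕ, (T : ℤ) = t := ⟨t.toNat, by omega⟩
    have hPT : ¬ P (T + 1) := by
      simp only [P]; push_cast; rw [hT]; nlinarith
    obtain ⟨r, hr1, hr2, hr3⟩ : ∃ r : ℕ, 1 ≤ r ∧ P r ∧ ¬ P (r + 1) := by
      by_contra hcon
      push Not at hcon
      have : ∀ n : ℕ, 1 ≤ n → P n := by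
        intro n hn
        induction n, hn using Nat.le_induction with
        | base => exact hP1
        | succ n hn ih => exact hcon n hn ih
      exact hPT (this (T + 1) (by omega))
    simp only [P] at hr2 hr3
    push_cast at hr3
    have hr1' : (1 : ℤ) ≤ r := by exact_mod_cast hr1
    refine ⟨r, hr1', hr2, ?_, fun h => absurd h hc1⟩
    push Not at hr3
    set x : ℤ := (r : ℤ)
    have e1 : t < c * (x + 1) := by
      have : (x + 1) * t < (x + 1) * (c * (x + 1)) := by nlinarith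
      exact lt_of_mul_lt_mul_left this (by omega)
    have e2 : 0 ≤ 4 * c * x ^ 2 - 2 * t * x - 1 := by
      have : 0 ≤ (x - 1) * (c * (3 * x + 1) - t) := mul_nonneg (by omega) (by nlinarith)
      nlinarith
    have e3 : 4 * c * x ^ 2 - 2 * t * x - 1 ≠ 0 := by
      intro h
      have : 2 * (2 * (c * x ^ 2) - t * x) = 1 := by linarith
      omega
    omega

variable {K : Type*} [Field K] [NumberField K]

theorem Idx.wsq (I : Idx K) (σ : K →+* ℝ) : σ I.w ^ 2 = I.t * σ I.w + I.c := by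
  have := congrArg σ I.hw
  simpa using this

theorem Idx.pos_of (I : Idx K) {r : ℤ} (hr : 0 ≤ r) (h : 0 < 1 + I.t * r - I.c * r ^ 2)
    (σ : K →+* ℝ) : 0 < σ (1 + r * I.w) := by
  obtain ⟨h1, h2⟩ := I.real_roots σ
  have hr' : (0 : ℝ) ≤ r := by exact_mod_cast hr
  have h' : (0 : ℝ) < 1 + I.t * r - I.c * r ^ 2 := by exact_mod_cast h
  simp only [map_add, map_one, map_mul, map_intCast]
  rcases I.sign σ with ⟨h3, -⟩ | ⟨-, h4⟩
  · positivity
  · have h5 : (1 + r * σ I.w) * (1 + r * σ (I.τ I.w)) = 1 + I.t * r - I.c * r ^ 2 := by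
      rw [← h1]; linear_combination r ^ 2 * h2
    have h6 : 0 < 1 + r * σ (I.τ I.w) := by positivity
    by_contra hcon
    push Not at hcon
    have := mul_nonpos_of_nonpos_of_nonneg hcon h6.le
    linarith

theorem Idx.half_of (I : Idx K) {r : ℤ} (hr : 0 ≤ r) (h : 0 < 4 * I.c * r ^ 2 - 2 * I.t * r - 1)
    (σ : K →+* ℝ) (hσ : σ I.w < 0) : 2 * (1 + r * σ I.w) < 1 := by
  obtain ⟨h1, h2⟩ := I.real_roots σ
  have hr' : (0 : ℝ) ≤ r := by exact_mod_cast hr
  have h' : (0 : ℝ) < 4 * I.c * r ^ 2 - 2 * I.t * r - 1 := by exact_mod_cast h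
  rcases I.sign σ with ⟨h3, -⟩ | ⟨-, h4⟩
  · linarith
  · have h5 : (1 + 2 * r * σ I.w) * (1 + 2 * r * σ (I.τ I.w))
        = -(4 * I.c * r ^ 2 - 2 * I.t * r - 1) := by
      rw [← h1]; linear_combination 4 * r ^ 2 * h2
    have h6 : 0 < 1 + 2 * r * σ (I.τ I.w) := by positivity
    by_contra hcon
    push Not at hcon
    have : 0 ≤ (1 + 2 * r * σ I.w) * (1 + 2 * r * σ (I.τ I.w)) :=
      mul_nonneg (by linarith) h6.le
    linarith

/-- the relative quadratic piece attached to a generator whose discriminant is coprime to the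
discriminants of the other ones. -/
theorem exists_idx [IsTotallyReal K] {k : ℕ} {s : Fin k → K} {m : Fin k → ℤ}
    (hs : ∀ i, s i ^ 2 = m i)
    (hgen : IntermediateField.adjoin ℚ (Set.range s) = ⊤)
    (hdeg : Module.finrank ℚ K = 2 ^ k) {j : Fin k} (hm : Squarefree (m j))
    (hcop : ∀ i, i ≠ j → IsCoprime (fdisc (m j)) (fdisc (m i))) :
    ∃ I : Idx K, I.τ (s j) = -s j ∧ (∀ l, l ≠ j → I.τ (s l) = s l) ∧
      (∀ τ : K ≃+* K, τ (s j) = s j → τ I.w = I.w) ∧
      fdisc (m j) = I.t ^ 2 + 4 * I.c ∧ (m j % 4 = 1 → Odd I.t) := by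
  classical
  have haut : ∀ i, ∃ τ : K ≃ₐ[ℚ] K, τ (s i) = -s i ∧ ∀ l, l ≠ i → τ (s l) = s l := by
    intro i
    obtain ⟨τ, hτ⟩ := exists_aut hs hgen hdeg (Function.update 1 i (-1))
    refine ⟨τ, by rw [hτ]; simp, fun l hl => by rw [hτ]; simp [hl]⟩
  obtain ⟨τj, hj, hj'⟩ := haut j
  have hsj : s j ≠ 0 := by
    intro h
    have := hs j
    rw [h] at this
    have h2 : (m j : K) = 0 := by rw [← this]; ring
    exact hm.ne_zero (by exact_mod_cast h2)
  have hcopint := fun x hx => coprime_int hs hgen hm hj hj' haut hcop (x := x) hx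
  -- positivity of `m j` and `m j` is not a square
  have hmpos : 0 < m j := by
    obtain ⟨σ⟩ := exists_real K
    have h1 : σ (s j) ^ 2 = m j := by rw [← map_pow, hs j, map_intCast]
    have h2 : σ (s j) ≠ 0 := fun h => hsj ((map_eq_zero σ).mp h)
    have h3 : (0 : ℝ) < m j := by rw [← h1]; positivity
    exact_mod_cast h3
  have hnsq : ∀ a : ℤ, a ^ 2 ≠ m j := by
    intro a ha
    have h1 : s j ^ 2 = (a : K) ^ 2 := by rw [hs j, ← ha]; push_cast; ring
    have h2 : τj (s j) = s j := by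
      rcases sq_eq_sq_iff_eq_or_eq_neg.mp h1 with h | h
      · rw [h, map_intCast]
      · rw [h, map_neg, map_intCast]
    rw [hj] at h2
    have h4 : (2 : K) * s j = 0 := by linear_combination -h2
    exact hsj ((mul_eq_zero.mp h4).resolve_left two_ne_zero)
  obtain ⟨M, hM⟩ : ∃ M : ℕ, (M : ℤ) = m j := ⟨(m j).toNat, by omega⟩
  set r := Nat.sqrt M with hr
  have hr1 : (r : ℤ) ^ 2 < m j := by
    have h1 : r * r ≤ M := Nat.sqrt_le M
    have h2 : (r : ℤ) ^ 2 ≤ m j := by rw [← hM, sq]; exact_mod_cast h1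
    exact lt_of_le_of_ne h2 (hnsq r)
  have hr2 : m j < ((r : ℤ) + 1) ^ 2 := by
    have h1 : M < (r + 1) * (r + 1) := Nat.lt_succ_sqrt M
    rw [← hM, sq]; exact_mod_cast h1
  have hτ2 : τj (2 : K) = 2 := map_ofNat τj 2
  by_cases h4 : m j % 4 = 1
  · -- the case `m j ≡ 1 mod 4`
    have hm5 : 5 ≤ m j := by
      have : m j ≠ 1 := fun h => hnsq 1 (by rw [h]; norm_num)
      omega
    have hr3 : 2 ≤ (r : ℤ) := by nlinarith
    obtain ⟨a, ha1, ha2, ha3, ha4⟩ : ∃ a : ℤ, Odd a ∧ 1 ≤ a ∧ a ^ 2 < m j ∧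
        m j < (a + 2) ^ 2 := by
      rcases Int.even_or_odd (r : ℤ) with h | h
      · exact ⟨r - 1, h.sub_odd odd_one, by omega, by nlinarith, by nlinarith⟩
      · exact ⟨r, h, by omega, hr1, by nlinarith⟩
    obtain ⟨b, hb⟩ := ha1
    have hdiv : m j - a ^ 2 = 4 * ((m j - a ^ 2) / 4) := by
      have : a ^ 2 = 4 * (b ^ 2 + b) + 1 := by rw [hb]; ring
      omega
    set c := (m j - a ^ 2) / 4 with hc
    have hcK : (m j : K) = (a : K) ^ 2 + 4 * c := by
      have : m j = a ^ 2 + 4 * c := by linarith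
      exact_mod_cast this
    refine ⟨Idx.mk τj.toRingEquiv ((a + s j) / 2) a c
      (fun x => aut_invol hs hgen τj x) ?_ ?_ ?_ ?_ ?_, ?_, ?_, ?_, ?_, ?_⟩
    · have := hs j
      rw [hcK] at this
      linear_combination this / 4
    · change τj ((a + s j) / 2) = _
      rw [map_div₀, map_add, map_intCast, hj, hτ2]; ring
    · nlinarith
    · nlinarith
    · intro γ hγ
      have h1 := hcopint γ hγ
      unfold Dg at h1
      rw [if_pos h4] at h1
      have h2 : (a + s j) / 2 - τj ((a + s j) / 2) = s j := by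
        rw [map_div₀, map_add, map_intCast, hj, hτ2]; ring
      change IsIntegral ℤ ((γ - τj γ) / ((a + s j) / 2 - τj ((a + s j) / 2)))
      rw [h2]; exact h1
    · exact hj
    · exact hj'
    · intro τ hτ
      have h2 : τ (2 : K) = 2 := map_ofNat τ 2
      change τ ((a + s j) / 2) = (a + s j) / 2
      rw [map_div₀, map_add, map_intCast, hτ, h2]
    · change fdisc (m j) = a ^ 2 + 4 * c
      unfold fdisc
      rw [if_pos h4]; linarith
    · intro _
      exact ⟨b, hb⟩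
  · refine ⟨Idx.mk τj.toRingEquiv ((r : ℤ) + s j) (2 * r) (m j - (r : ℤ) ^ 2)
      (fun x => aut_invol hs hgen τj x) ?_ ?_ ?_ ?_ ?_, ?_, ?_, ?_, ?_, ?_⟩
    · have := hs j
      push_cast
      linear_combination this
    · change τj ((r : ℤ) + s j) = _
      rw [map_add, map_intCast, hj]; push_cast; ring
    · linarith
    · nlinarith
    · intro γ hγ
      have h1 := hcopint γ hγ
      unfold Dg at h1
      rw [if_neg h4] at h1
      have h2 : ((r : ℤ) + s j) - τj ((r : ℤ) + s j) = 2 * s j := by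
        rw [map_add, map_intCast, hj]; ring
      change IsIntegral ℤ ((γ - τj γ) / (((r : ℤ) + s j) - τj ((r : ℤ) + s j)))
      rw [h2]; exact h1
    · exact hj
    · exact hj'
    · intro τ hτ
      change τ ((r : ℤ) + s j) = (r : ℤ) + s j
      rw [map_add, map_intCast, hτ]
    · change fdisc (m j) = (2 * (r : ℤ)) ^ 2 + 4 * (m j - (r : ℤ) ^ 2)
      unfold fdisc
      rw [if_neg h4]; ring
    · intro h
      exact absurd h h4

end Pool.Agent.Work.MP_eae946_nt
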