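import Pool.Agent.Work.MP_eae946_nt.Build

namespace Pool.Agent.Work.MP_eae946_nt

open NumberField

variable {K : Type*} [Field K] [NumberField K] [IsTotallyReal K]

section

variable {V : Type*} [AddCommGroup V] [Module K V] {B : V →ₗ[K] V →ₗ[K] K} {L : AddSubgroup V}

omit [NumberField K] [IsTotallyReal K] in
theorem ne_zero_of_val {v : V} {α : K} (σ : K →+* ℝ) (h : B v v = α) (hα : 0 < σ α) :
    v ≠ 0 := by
  rintro rfl
  rw [map_zero] at h
  rw [← h, map_zero] at hα
  exact lt_irrefl _ hα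

theorem case_three (h : Lat K V B L) (I : Fin 3 → Idx K)
    (hfix : ∀ a b, a ≠ b → (I b).τ (I a).w = (I a).w)
    (hne : ∀ a, (I a).c = 1 → (1 : ℤ) ≠ (I a).t) : False := by
  have hint : ∀ a, IsIntegral ℤ (1 + (I a).w) := fun a => isIntegral_one.add (I a).w_int
  have hpos : ∀ a, ∀ σ : K →+* ℝ, 0 < σ (1 + (I a).w) := by
    intro a σ
    have := (I a).pos_of (r := 1) (by norm_num) (by
      have h1 := (I a).hct
      nlinarith) σ
    simpa using this
  have hPP : ∀ a, PP (1 + (I a).w) := by
    intro a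
    have := (I a).PP_one (r := 1) le_rfl (hne a)
    simpa using this
  have hPP2 : ∀ a b, a ≠ b → PP ((1 + (I a).w) * (1 + (I b).w)) := by
    intro a b hab
    have := (I b).PP_mul (A := 1 + (I a).w) (by rw [map_add, map_one, hfix a b hab]) (hPP a) 1
    simpa using this
  obtain ⟨v0, hv0, h0⟩ := h.universal 1 isIntegral_one (fun σ => by simp)
  choose v hv hval using fun a => h.universal (1 + (I a).w) (hint a) (hpos a)
  obtain ⟨σ⟩ := exists_real K
  have : Nonempty (K →+* ℝ) := ⟨σ⟩
  have o1 : ∀ a, B v0 (v a) = 0 := fun a => h.orth hv0 (hv a) (by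
    rw [h0, hval, one_mul]; exact hPP a)
  have o2 : ∀ a b, a ≠ b → B (v a) (v b) = 0 := fun a b hab => h.orth (hv a) (hv b) (by
    rw [hval, hval]; exact hPP2 a b hab)
  have n0 : v0 ≠ 0 := ne_zero_of_val σ h0 (by simp)
  have n1 : ∀ a, v a ≠ 0 := fun a => ne_zero_of_val σ (hval a) (hpos a σ)
  refine h.no_four (Fin.cons v0 v) ?_ ?_
  · intro i
    refine Fin.cases ?_ (fun a => ?_) i
    · simpa using n0
    · simpa using n1 a
  · intro i j
    refine Fin.cases ?_ (fun a => ?_) i <;> refine Fin.cases ?_ (fun b => ?_) j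
    · intro h; exact absurd rfl h
    · intro _; simpa using o1 b
    · intro _; rw [h.symm]; simpa using o1 a
    · intro hab
      have : a ≠ b := fun h => hab (by rw [h])
      simpa using o2 a b this

theorem case_golden (h : Lat K V B L) (J J' : Idx K) {p : K} (hp : p ^ 2 = p + 1)
    (ψ : K ≃+* K) (hψp : ψ p = 1 - p) (hψw : ψ J.w = J.w) (hτp : J.τ p = p)
    (hτ'p : J'.τ p = p) (hτ'w : J'.τ J.w = J.w) (hθ : ∀ x : K, x ^ 2 ≠ 2 + p)
    (hodd : Odd J.t) (hne : J.c = 1 → (1 : ℤ) ≠ J.t) (hne' : J'.c = 1 → (1 : ℤ) ≠ J'.t) :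
    False := by
  have h13 : J.c = 1 → Odd J.t ∧ 3 ≤ J.t := by
    intro h1
    refine ⟨hodd, ?_⟩
    have := hne h1
    have h2 := J.hct
    obtain ⟨q, hq⟩ := hodd
    omega
  obtain ⟨r, hr1, hr2, hr3, hr4⟩ := exists_r J.hc J.hct h13
  have hr0 : 0 ≤ r := by omega
  have hPPβ : PP (1 + r * J.w) := J.PP_one hr1 (by
    intro h1
    have := hr4 h1
    have h2 := (h13 h1).2
    omega)
  have hPPθ : PP ((2 + p) * (1 + r * J.w)) :=
    golden_PP J hτp hp ψ hψp hψw hθ hr1 (fun σ hσ => J.half_of hr0 hr3 σ hσ)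
      (fun h1 => ⟨(h13 h1).2, hr4 h1⟩) hodd
  have hPPα : PP (1 + J'.w) := by
    have := J'.PP_one (r := 1) le_rfl hne'
    simpa using this
  have e1 : J'.τ (1 + r * J.w) = 1 + r * J.w := by
    rw [map_add, map_one, map_mul, map_intCast, hτ'w]
  have e2 : J'.τ (2 + p) = 2 + p := by rw [map_add, map_ofNat, hτ'p]
  have hPPβα : PP ((1 + r * J.w) * (1 + J'.w)) := by
    have := J'.PP_mul e1 hPPβ 1
    simpa using this
  have hPPθα : PP ((2 + p) * (1 + r * J.w) * (1 + J'.w)) := by
    have := J'.PP_mul (A := (2 + p) * (1 + r * J.w)) (by rw [map_mul, e1, e2]) hPPθ 1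
    simpa using this
  -- positivity
  have pβ : ∀ σ : K →+* ℝ, 0 < σ (1 + r * J.w) := J.pos_of hr0 hr2
  have pα : ∀ σ : K →+* ℝ, 0 < σ (1 + J'.w) := by
    intro σ
    have := J'.pos_of (r := 1) (by norm_num) (by
      have h1 := J'.hct
      nlinarith) σ
    simpa using this
  have pθ : ∀ σ : K →+* ℝ, 0 < σ (2 + p) := by
    intro σ
    have := golden_real hp σ
    rw [map_add, map_ofNat]
    nlinarith
  have pθβ : ∀ σ : K →+* ℝ, 0 < σ ((2 + p) * (1 + r * J.w)) := by
    intro σ
    rw [map_mul]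
    exact mul_pos (pθ σ) (pβ σ)
  have iβ : IsIntegral ℤ (1 + r * J.w) :=
    isIntegral_one.add ((isIntegral_algebraMap (R := ℤ) (x := r)).mul J.w_int)
  have iα : IsIntegral ℤ (1 + J'.w) := isIntegral_one.add J'.w_int
  have iθ : IsIntegral ℤ (2 + p) := by
    have := (isIntegral_algebraMap (R := ℤ) (A := K) (x := 2)).add (golden_int hp)
    simpa using this
  obtain ⟨σ⟩ := exists_real K
  have : Nonempty (K →+* ℝ) := ⟨σ⟩
  obtain ⟨v0, hv0, h0⟩ := h.universal 1 isIntegral_one (fun σ => by simp)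
  obtain ⟨v1, hv1, h1⟩ := h.universal _ iα pα
  obtain ⟨v2, hv2, h2⟩ := h.universal _ iβ pβ
  obtain ⟨v3, hv3, h3⟩ := h.universal _ (iθ.mul iβ) pθβ
  have n0 : v0 ≠ 0 := ne_zero_of_val σ h0 (by simp)
  have n1 : v1 ≠ 0 := ne_zero_of_val σ h1 (pα σ)
  have n2 : v2 ≠ 0 := ne_zero_of_val σ h2 (pβ σ)
  have o01 : B v0 v1 = 0 := h.orth hv0 hv1 (by rw [h0, h1, one_mul]; exact hPPα)
  have o02 : B v0 v2 = 0 := h.orth hv0 hv2 (by rw [h0, h2, one_mul]; exact hPPβ)
  have o03 : B v0 v3 = 0 := h.orth hv0 hv3 (by rw [h0, h3, one_mul]; exact hPPθ)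
  have o12 : B v1 v2 = 0 := h.orth hv1 hv2 (by rw [h1, h2, mul_comm]; exact hPPβα)
  have o13 : B v1 v3 = 0 := h.orth hv1 hv3 (by rw [h1, h3, mul_comm]; exact hPPθα)
  set u : V := B v2 v2 • v3 - B v2 v3 • v2 with hu
  have ou0 : B v0 u = 0 := by
    rw [hu, map_sub, map_smul, map_smul, o02, o03]; simp
  have ou1 : B v1 u = 0 := by
    rw [hu, map_sub, map_smul, map_smul, o12, o13]; simp
  have ou2 : B v2 u = 0 := by
    rw [hu, map_sub, map_smul, map_smul, smul_eq_mul, smul_eq_mul]; ring
  have hu0 : u = 0 := by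
    by_contra hu0
    refine h.no_four ![v0, v1, v2, u] ?_ ?_
    · intro i
      fin_cases i
      · exact n0
      · exact n1
      · exact n2
      · exact hu0
    · intro i j hij
      fin_cases i <;> fin_cases j
      · exact absurd rfl hij
      · exact o01
      · exact o02
      · exact ou0
      · exact (h.symm _ _).trans o01
      · exact absurd rfl hij
      · exact o12
      · exact ou1
      · exact (h.symm _ _).trans o02
      · exact (h.symm _ _).trans o12
      · exact absurd rfl hij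
      · exact ou2
      · exact (h.symm _ _).trans ou0
      · exact (h.symm _ _).trans ou1
      · exact (h.symm _ _).trans ou2
      · exact absurd rfl hij
  have hfin : B v2 v2 * B v3 v3 = B v2 v3 ^ 2 := by
    have : B u v3 = 0 := by rw [hu0]; simp
    rw [hu, map_sub, map_smul, map_smul, LinearMap.sub_apply, LinearMap.smul_apply,
      LinearMap.smul_apply, smul_eq_mul, smul_eq_mul] at this
    linear_combination this
  have hβ0 : (1 + r * J.w : K) ≠ 0 := by
    intro h5
    have := pβ σ
    rw [h5, map_zero] at this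
    exact lt_irrefl _ this
  apply hθ (B v2 v3 / (1 + r * J.w))
  rw [div_pow, ← hfin, h2, h3]
  field_simp

end

/-- Let `K = ℚ(√m₀, …, √m_{k-1})` be a totally real multiquadratic field of degree `2 ^ k`, the
`m i` being squarefree. If three of the generating quadratic fields `ℚ(√m i)` have
discriminants which are coprime to each other and to the discriminants of all the remaining
generating fields (so that `k ≥ 3`), then no classical totally positive definite ternary
quadratic form over `𝓞 K` is universal. -/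
theorem coprime_main (K : Type*) [Field K] [NumberField K] [IsTotallyReal K] {k : ℕ}
    (m : Fin k → ℤ) (s : Fin k → K) (hm : ∀ i, Squarefree (m i))
    (hs : ∀ i, s i ^ 2 = (m i : K))
    (hgen : IntermediateField.adjoin ℚ (Set.range s) = ⊤)
    (hdeg : Module.finrank ℚ K = 2 ^ k)
    (e : Fin 3 → Fin k) (he : Function.Injective e)
    (hcop : ∀ a j, j ≠ e a → IsCoprime (fdisc (m (e a))) (fdisc (m j))) :
    ¬ ∃ A : Matrix (Fin 3) (Fin 3) (𝓞 K), IsUniversalClassicalTernary K A := by
  rintro ⟨A, hA⟩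
  obtain ⟨B, L, h⟩ := lat_of_gram hA
  choose I hIneg hIpos hIw hId hIodd using
    fun a => exists_idx hs hgen hdeg (hm (e a)) (fun i hi => hcop a i hi)
  have hfix : ∀ a b, a ≠ b → (I b).τ (I a).w = (I a).w := by
    intro a b hab
    apply hIw
    apply hIpos
    exact fun hh => hab (he hh)
  by_cases h5 : ∀ a, fdisc (m (e a)) ≠ 5
  · refine case_three h I hfix ?_
    intro a hc ht
    apply h5 a
    rw [hId, hc, ← ht]; norm_num
  · push Not at h5
    obtain ⟨a, ha⟩ := h5
    -- `√5 ∈ K`
    have hma : m (e a) = 5 := by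
      unfold fdisc at ha
      split_ifs at ha with h1
      · exact ha
      · omega
    have hne5 : ∀ b, b ≠ a → fdisc (m (e b)) ≠ 5 := by
      intro b hb hb5
      have := hcop a (e b) (fun hh => hb (he hh))
      rw [ha, hb5] at this
      exact absurd this (by rw [Int.isCoprime_iff_gcd_eq_one]; decide)
    have hcI : ∀ b, b ≠ a → (I b).c = 1 → (1 : ℤ) ≠ (I b).t := by
      intro b hb hc ht
      apply hne5 b hb
      rw [hId, hc, ← ht]; norm_num
    -- choose the other two indices
    obtain ⟨b, c, hba, hca, hbc, hb4⟩ : ∃ b c : Fin 3, b ≠ a ∧ c ≠ a ∧ b ≠ c ∧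
        m (e b) % 4 = 1 := by
      obtain ⟨b, c, hba, hca, hbc⟩ : ∃ b c : Fin 3, b ≠ a ∧ c ≠ a ∧ b ≠ c := by
        fin_cases a
        · exact ⟨1, 2, by decide, by decide, by decide⟩
        · exact ⟨0, 2, by decide, by decide, by decide⟩
        · exact ⟨0, 1, by decide, by decide, by decide⟩
      by_cases hb4 : m (e b) % 4 = 1
      · exact ⟨b, c, hba, hca, hbc, hb4⟩
      · by_cases hc4 : m (e c) % 4 = 1
        · exact ⟨c, b, hca, hba, hbc.symm, hc4⟩
        · exfalso
          have := hcop b (e c) (fun hh => hbc (he hh).symm)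
          unfold fdisc at this
          rw [if_neg hb4, if_neg hc4] at this
          have h1 : IsCoprime (4 : ℤ) 4 :=
            (this.of_mul_left_left).of_mul_right_left
          exact absurd h1 (by rw [Int.isCoprime_iff_gcd_eq_one]; decide)
    have h2K : ∀ τ : K ≃+* K, τ (2 : K) = 2 := fun τ => map_ofNat τ 2
    have hsa : s (e a) ^ 2 = 5 := by rw [hs, hma]; norm_num
    have hpfix : ∀ b, b ≠ a → (I b).τ ((1 + s (e a)) / 2) = (1 + s (e a)) / 2 := by
      intro b hb
      rw [map_div₀, map_add, map_one, hIpos b (e a) (fun hh => hb (he hh).symm), h2K]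
    refine case_golden h (I b) (I c) (p := (1 + s (e a)) / 2) ?_ (I a).τ ?_ ?_ ?_ ?_ ?_ ?_ ?_
      (hcI b hba) (hcI c hca)
    · linear_combination hsa / 4
    · rw [map_div₀, map_add, map_one, hIneg a, h2K]; ring
    · exact hfix b a hba
    · exact hpfix b hba
    · exact hpfix c hca
    · exact hfix b c hbc
    · intro x hx
      have hx2 : ((I a).τ x) ^ 2 = 2 + (1 - s (e a)) / 2 := by
        rw [← map_pow, hx, map_add, h2K, map_div₀, map_add, map_one, hIneg a, h2K]; ring
      have hy : (x * (I a).τ x) ^ 2 = s (e a) ^ 2 := by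
        rw [mul_pow, hx, hx2]; linear_combination (-5 / 4 : K) * hsa
      have hfixy : (I a).τ (x * (I a).τ x) = x * (I a).τ x := by
        rw [map_mul, (I a).hττ]; ring
      have hs0 : s (e a) ≠ 0 := by
        intro h0; rw [h0] at hsa; norm_num at hsa
      have h4 : (I a).τ (s (e a)) = s (e a) := by
        rcases sq_eq_sq_iff_eq_or_eq_neg.mp hy with h5 | h5
        · rw [← h5, hfixy]
        · have : s (e a) = -(x * (I a).τ x) := by rw [h5]; ring
          rw [this, map_neg, hfixy]
      rw [hIneg a] at h4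
      have : (2 : K) * s (e a) = 0 := by linear_combination -h4
      exact hs0 ((mul_eq_zero.mp this).resolve_left two_ne_zero)
    · exact hIodd b hb4

end Pool.Agent.Work.MP_eae946_nt
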