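import Pool.Agent.Work.MP_eae946_nt.Basic

namespace Pool.Agent.Work.MP_eae946_nt

open NumberField

variable {K : Type*} [Field K] [NumberField K]

/-- a relative quadratic piece of `K`: an involution `τ`, an integer `w` of a real quadratic
subfield with `w ^ 2 = t * w + c`, `1 ≤ c ≤ t`, such that every integer of `K` is
`γ₀ + γ₁ * w` with `γ₀, γ₁` integers fixed by `τ`. -/
structure Idx (K : Type*) [Field K] [NumberField K] where
  τ : K ≃+* K
  w : K
  t : ℤ
  c : ℤ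
  hττ : ∀ x, τ (τ x) = x
  hw : w ^ 2 = t * w + c
  hτw : τ w = t - w
  hc : 1 ≤ c
  hct : c ≤ t
  hint : ∀ γ, IsIntegral ℤ γ → IsIntegral ℤ ((γ - τ γ) / (w - τ w))

variable (I : Idx K)

omit [NumberField K] in
theorem int_of_quadratic {x : K} {a b : ℤ} (h : x ^ 2 = a * x + b) : IsIntegral ℤ x := by
  refine ⟨Polynomial.X ^ 2 + (Polynomial.C (-a) * Polynomial.X + Polynomial.C (-b)), ?_, ?_⟩
  · monicity!
  · simp only [Polynomial.eval₂_add, Polynomial.eval₂_mul, Polynomial.eval₂_X_pow,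
      Polynomial.eval₂_X, Polynomial.eval₂_C]
    rw [h]
    simp
    ring

theorem Idx.w_int : IsIntegral ℤ I.w := int_of_quadratic I.hw

theorem Idx.D_ne : I.w - I.τ I.w ≠ 0 := by
  rw [I.hτw]
  intro h
  have h1 : (I.w : K) - (I.t - I.w) = 0 := h
  have h2 : (2 * I.w - I.t) ^ 2 = ((I.t ^ 2 + 4 * I.c : ℤ) : K) := by
    push_cast
    linear_combination 4 * I.hw
  have h3 : (2 * I.w - I.t : K) = 0 := by linear_combination h1
  rw [h3] at h2
  have h4 : (I.t ^ 2 + 4 * I.c : ℤ) = 0 := by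
    have : ((I.t ^ 2 + 4 * I.c : ℤ) : K) = 0 := by rw [← h2]; ring
    exact_mod_cast this
  have := I.hc
  nlinarith [sq_nonneg I.t]

/-- the decomposition `γ = γ₀ + γ₁ w`. -/
theorem Idx.decomp (γ : K) (hγ : IsIntegral ℤ γ) : ∃ g0 g1 : K, IsIntegral ℤ g0 ∧
    IsIntegral ℤ g1 ∧ I.τ g0 = g0 ∧ I.τ g1 = g1 ∧ γ = g0 + g1 * I.w := by
  have hD := I.D_ne
  have hττw : I.τ (I.τ I.w) = I.w := I.hττ _
  set g1 := (γ - I.τ γ) / (I.w - I.τ I.w) with hg1
  have hi := I.hint γ hγ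
  have hf : I.τ g1 = g1 := by
    rw [hg1, map_div₀, map_sub, map_sub, I.hττ, I.hττ]
    rw [div_eq_div_iff (by intro h; exact hD (by linear_combination -h)) hD]
    ring
  have hmul : g1 * (I.w - I.τ I.w) = γ - I.τ γ := by
    rw [hg1]; field_simp
  refine ⟨γ - g1 * I.w, g1, hγ.sub (hi.mul I.w_int), hi, ?_, hf, by ring⟩
  rw [map_sub, map_mul, hf]
  linear_combination hmul

/-- key inequality -/
theorem key_ineq {W W' c G0 G1 A r : ℝ} (h2 : W * W' = -c)
    (hW : 0 < W) (hW' : W' < 0)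
    (ha : (G0 + G1 * W) ^ 2 ≤ A * (1 + r * W)) (hb : (G0 + G1 * W') ^ 2 ≤ A * (1 + r * W')) :
    G0 ^ 2 + c * G1 ^ 2 ≤ A := by
  have hc : c = -(W * W') := by linarith
  have h3 := mul_le_mul_of_nonneg_left ha (neg_nonneg.mpr hW'.le)
  have h4 := mul_le_mul_of_nonneg_left hb hW.le
  have h5 : (W - W') * (G0 ^ 2 + c * G1 ^ 2) ≤ (W - W') * A := by
    rw [hc]
    nlinarith
  exact le_of_mul_le_mul_left h5 (by linarith)

theorem Idx.real_roots (σ : K →+* ℝ) : σ I.w + σ (I.τ I.w) = I.t ∧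
    σ I.w * σ (I.τ I.w) = -(I.c : ℝ) := by
  rw [I.hτw]
  constructor
  · simp
  · rw [← map_mul]
    have : I.w * (I.t - I.w) = ((-I.c : ℤ) : K) := by
      push_cast
      linear_combination -I.hw
    rw [this, map_intCast]
    push_cast
    ring

theorem Idx.c_pos_real : (0 : ℝ) < I.c := by
  have := I.hc
  exact_mod_cast (by omega : 0 < I.c)

theorem Idx.sign (σ : K →+* ℝ) : (0 < σ I.w ∧ σ (I.τ I.w) < 0) ∨
    (σ I.w < 0 ∧ 0 < σ (I.τ I.w)) := by
  obtain ⟨-, h2⟩ := I.real_roots σ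
  have hc := I.c_pos_real
  rcases lt_trichotomy (σ I.w) 0 with h | h | h
  · right
    refine ⟨h, ?_⟩
    by_contra h3
    push Not at h3
    nlinarith [mul_nonneg_of_nonpos_of_nonpos h.le h3]
  · rw [h] at h2; linarith
  · left
    refine ⟨h, ?_⟩
    by_contra h3
    push Not at h3
    nlinarith [mul_nonneg h.le h3]

theorem Idx.flip (σ : K →+* ℝ) : ∃ σ' : K →+* ℝ, (∀ x, σ' x = σ (I.τ x)) ∧
    ∀ x, σ x = σ' (I.τ x) := by
  refine ⟨σ.comp I.τ.toRingHom, fun x => rfl, fun x => ?_⟩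
  change σ x = σ (I.τ (I.τ x))
  rw [I.hττ]

theorem Idx.reduce {A g0 g1 : K} (hA : I.τ A = A) (h0 : I.τ g0 = g0) (h1 : I.τ g1 = g1) {r : ℤ}
    (h : Dom (g0 + g1 * I.w) (A * (1 + r * I.w))) (σ : K →+* ℝ) :
    σ g0 ^ 2 + I.c * σ g1 ^ 2 ≤ σ A := by
  obtain ⟨σ', hσ', hσ⟩ := I.flip σ
  obtain ⟨-, hp⟩ := I.real_roots σ
  have ha := h σ
  have hb := h σ'
  simp only [map_add, map_mul, map_one, map_intCast] at ha hb
  have e1 : σ' g0 = σ g0 := by rw [hσ', h0]
  have e2 : σ' g1 = σ g1 := by rw [hσ', h1]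
  have e3 : σ' A = σ A := by rw [hσ', hA]
  have e4 : σ' I.w = σ (I.τ I.w) := hσ' _
  rw [e1, e2, e3, e4] at hb
  rcases I.sign σ with ⟨h3, h4⟩ | ⟨h3, h4⟩
  · exact key_ineq hp h3 h4 ha hb
  · exact key_ineq (by rw [mul_comm]; exact hp) h4 h3 hb ha

theorem Idx.PP_mul {A : K} (hA : I.τ A = A) (hP : PP A) (r : ℤ) :
    PP (A * (1 + r * I.w)) := by
  intro γ hγ hd
  obtain ⟨g0, g1, i0, i1, f0, f1, rfl⟩ := I.decomp γ hγ
  have hr := I.reduce hA f0 f1 hd
  have hc : (1 : ℝ) ≤ I.c := by exact_mod_cast I.hc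
  have z0 : g0 = 0 := hP _ i0 fun σ => by
    have := hr σ
    nlinarith [sq_nonneg (σ g1)]
  have z1 : g1 = 0 := hP _ i1 fun σ => by
    have := hr σ
    nlinarith [sq_nonneg (σ g1), sq_nonneg (σ g0)]
  rw [z0, z1]; ring

variable [IsTotallyReal K]

theorem Idx.exists_neg : ∃ σ : K →+* ℝ, σ I.w < 0 := by
  obtain ⟨σ⟩ := exists_real K
  rcases I.sign σ with h | h
  · obtain ⟨σ', hσ', -⟩ := I.flip σ
    exact ⟨σ', by rw [hσ']; exact h.2⟩
  · exact ⟨σ, h.1⟩

theorem Idx.exists_pos : ∃ σ : K →+* ℝ, 0 < σ I.w := by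
  obtain ⟨σ⟩ := exists_real K
  rcases I.sign σ with h | h
  · exact ⟨σ, h.1⟩
  · obtain ⟨σ', hσ', -⟩ := I.flip σ
    exact ⟨σ', by rw [hσ']; exact h.2⟩

theorem Idx.PP_one {r : ℤ} (hr : 1 ≤ r) (hex : I.c = 1 → r ≠ I.t) :
    PP (1 + r * I.w) := by
  intro γ hγ hd
  obtain ⟨g0, g1, i0, i1, f0, f1, rfl⟩ := I.decomp γ hγ
  have hred := I.reduce (A := 1) (map_one _) f0 f1 (by rw [one_mul]; exact hd)
  have hc : (1 : ℝ) ≤ I.c := by exact_mod_cast I.hc
  have hrr : (1 : ℝ) ≤ r := by exact_mod_cast hr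
  have k0 : g0 = 0 ∨ g0 = 1 ∨ g0 = -1 := kronecker i0 fun σ => by
    have := hred σ
    nlinarith [sq_nonneg (σ g1)]
  have k1 : g1 = 0 ∨ g1 = 1 ∨ g1 = -1 := kronecker i1 fun σ => by
    have := hred σ
    nlinarith [sq_nonneg (σ g1), sq_nonneg (σ g0)]
  -- the case `g1 = 0`
  by_cases h1 : g1 = 0
  · subst h1
    by_cases h0 : g0 = 0
    · subst h0; ring
    exfalso
    have hsq : g0 ^ 2 = 1 := by
      rcases k0 with h | h | h
      · exact absurd h h0
      · rw [h]; ring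
      · rw [h]; ring
    obtain ⟨σ, hσ⟩ := I.exists_neg
    have := hd σ
    simp only [zero_mul, add_zero, map_add, map_one, map_mul, map_intCast] at this
    rw [← map_pow, hsq, map_one] at this
    nlinarith
  · exfalso
    have hsq : g1 ^ 2 = 1 := by
      rcases k1 with h | h | h
      · exact absurd h h1
      · rw [h]; ring
      · rw [h]; ring
    obtain ⟨σ0⟩ := exists_real K
    have hc1 : I.c = 1 := by
      have := hred σ0
      rw [← map_pow σ0 g1, hsq] at this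
      simp only [map_one] at this
      have h3 : (I.c : ℝ) ≤ 1 := by nlinarith [sq_nonneg (σ0 g0)]
      have h4 : I.c ≤ 1 := by exact_mod_cast h3
      have := I.hc
      omega
    have h0 : g0 = 0 := by
      have := hred σ0
      rw [← map_pow σ0 g1, hsq, hc1] at this
      simp only [map_one] at this
      have h3 : σ0 g0 ^ 2 ≤ 0 := by push_cast at this; linarith
      have h4 : σ0 g0 = 0 := by
        have := sq_nonneg (σ0 g0)
        exact pow_eq_zero_iff (two_ne_zero) |>.mp (le_antisymm h3 this)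
      exact (map_eq_zero σ0).mp h4
    subst h0
    have hw2 : (0 + g1 * I.w) ^ 2 = 1 + I.t * I.w := by
      have := I.hw
      rw [hc1] at this
      push_cast at this
      linear_combination (I.w ^ 2) * hsq + this
    have key : ∀ σ : K →+* ℝ, ((I.t : ℝ) - r) * σ I.w ≤ 0 := by
      intro σ
      have := hd σ
      rw [← map_pow, hw2] at this
      simp only [map_add, map_one, map_mul, map_intCast] at this
      linarith
    obtain ⟨σ1, hσ1⟩ := I.exists_pos
    obtain ⟨σ2, hσ2⟩ := I.exists_neg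
    have e1 : (I.t : ℝ) - r ≤ 0 := by
      by_contra h
      push Not at h
      nlinarith [key σ1, mul_pos h hσ1]
    have e2 : 0 ≤ (I.t : ℝ) - r := by
      by_contra h
      push Not at h
      nlinarith [key σ2, mul_pos_of_neg_of_neg h hσ2]
    have e3 : (r : ℝ) = I.t := by linarith
    exact hex hc1 (by exact_mod_cast e3)

end Pool.Agent.Work.MP_eae946_nt
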