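import Pool.Agent.Work.MP_eae946_nt.Index

namespace Pool.Agent.Work.MP_eae946_nt

open NumberField

variable {K : Type*} [Field K] [NumberField K] [IsTotallyReal K]

omit [NumberField K] [IsTotallyReal K] in
theorem golden_int {p : K} (hp : p ^ 2 = p + 1) : IsIntegral ℤ p :=
  int_of_quadratic (a := 1) (b := 1) (by push_cast; linear_combination hp)

omit [NumberField K] [IsTotallyReal K] in
theorem golden_real {p : K} (hp : p ^ 2 = p + 1) (σ : K →+* ℝ) : σ p ^ 2 = σ p + 1 := by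
  rw [← map_pow, hp, map_add, map_one]

/-- squares below `θ = 2 + φ` -/
theorem golden_class {p g : K} (hp : p ^ 2 = p + 1) (hg : IsIntegral ℤ g)
    (hd : Dom g (2 + p)) : g ^ 2 = 0 ∨ g ^ 2 = 1 ∨ g ^ 2 = p ^ 2 ∨ g ^ 2 = 2 + p := by
  have hpi := golden_int hp
  set q : K := (g ^ 2 - 1) * (g ^ 2 - p ^ 2) * (p - 1) ^ 2 with hq
  have hqi : IsIntegral ℤ q :=
    (((hg.pow 2).sub isIntegral_one).mul ((hg.pow 2).sub (hpi.pow 2))).mul
      ((hpi.sub isIntegral_one).pow 2)
  have hbd : ∀ σ : K →+* ℝ, -(1 / 4) ≤ σ q ∧ σ q ≤ 1 := by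
    intro σ
    have h1 := golden_real hp σ
    have h2 := hd σ
    have h3 : σ q = (σ g ^ 2 - 1) * (σ g ^ 2 - σ p ^ 2) * (σ p - 1) ^ 2 := by
      rw [hq]; simp
    rw [map_add, map_ofNat] at h2
    set x := σ g ^ 2 with hx
    set a := σ p with ha
    have hx0 : 0 ≤ x := sq_nonneg _
    have h4 : (σ g ^ 2 - 1) * (σ g ^ 2 - a ^ 2) * (a - 1) ^ 2
        = 1 - (x * (2 + a - x)) * (a - 1) ^ 2 := by
      rw [← hx]
      have : (a - 1) ^ 2 * a ^ 2 = 1 := by
        have : (a - 1) * a = 1 := by nlinarith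
        rw [← mul_pow, this, one_pow]
      have h5 : a ^ 2 = a + 1 := h1
      linear_combination this + (-x * (a - 1) ^ 2) * h5
    rw [h3, h4]
    have h6 : 0 ≤ (x * (2 + a - x)) * (a - 1) ^ 2 := by
      apply mul_nonneg (mul_nonneg hx0 (by linarith)) (sq_nonneg _)
    have h7 : (x * (2 + a - x)) * (a - 1) ^ 2 ≤ 5 / 4 := by
      have e1 : (2 + a) ^ 2 * (a - 1) ^ 2 = 5 := by
        have : (2 + a) * (a - 1) = 2 * a - 1 := by linarith
        rw [← mul_pow, this]; nlinarith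
      have e2 : x * (2 + a - x) ≤ (2 + a) ^ 2 / 4 := by nlinarith [sq_nonneg (2 * x - (2 + a))]
      calc (x * (2 + a - x)) * (a - 1) ^ 2 ≤ ((2 + a) ^ 2 / 4) * (a - 1) ^ 2 :=
            mul_le_mul_of_nonneg_right e2 (sq_nonneg _)
        _ = 5 / 4 := by rw [div_mul_eq_mul_div, e1]
    constructor <;> linarith
  have hp0 : p - 1 ≠ 0 := by
    intro h
    have : (p - 1) * p = 1 := by linear_combination hp
    rw [h, zero_mul] at this
    exact zero_ne_one this
  rcases kronecker hqi (fun σ => by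
    rw [map_one]
    have := hbd σ
    nlinarith [this.1, this.2]) with h | h | h
  · rw [hq] at h
    rcases mul_eq_zero.mp h with h | h
    · rcases mul_eq_zero.mp h with h | h
      · right; left; linear_combination h
      · right; right; left; linear_combination h
    · exact absurd (pow_eq_zero_iff two_ne_zero |>.mp h) hp0
  · have h4 : q = 1 - (g ^ 2 * (2 + p - g ^ 2)) * (p - 1) ^ 2 := by
      rw [hq]
      have : (p - 1) ^ 2 * p ^ 2 = 1 := by
        have : (p - 1) * p = 1 := by linear_combination hp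
        rw [← mul_pow, this, one_pow]
      linear_combination this + (-g ^ 2 * (p - 1) ^ 2) * hp
    rw [h] at h4
    have h5 : (g ^ 2 * (2 + p - g ^ 2)) * (p - 1) ^ 2 = 0 := by linear_combination h4
    rcases mul_eq_zero.mp h5 with h | h
    · rcases mul_eq_zero.mp h with h | h
      · left; exact h
      · right; right; right; linear_combination -h
    · exact absurd (pow_eq_zero_iff two_ne_zero |>.mp h) hp0
  · obtain ⟨σ⟩ := exists_real K
    have := (hbd σ).1
    rw [h, map_neg, map_one] at this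
    norm_num at this

variable (I : Idx K)

/-- real embeddings with prescribed signs of `p` and `w`. -/
theorem exists_signs {p : K} (hτp : I.τ p = p) (hp : p ^ 2 = p + 1)
    (ψ : K ≃+* K) (hψp : ψ p = 1 - p) (hψw : ψ I.w = I.w) :
    (∃ σ : K →+* ℝ, 0 < σ p ∧ 0 < σ I.w) ∧ (∃ σ : K →+* ℝ, 0 < σ p ∧ σ I.w < 0) ∧
    (∃ σ : K →+* ℝ, σ p < 0 ∧ 0 < σ I.w) ∧ (∃ σ : K →+* ℝ, σ p < 0 ∧ σ I.w < 0) := by
  have key : ∀ σ : K →+* ℝ, ∃ σ' : K →+* ℝ, σ' p = σ p ∧ ((0 < σ I.w → σ' I.w < 0) ∧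
      (σ I.w < 0 → 0 < σ' I.w)) := by
    intro σ
    obtain ⟨σ', h1, -⟩ := I.flip σ
    refine ⟨σ', by rw [h1, hτp], ?_, ?_⟩
    · intro h; rw [h1]
      rcases I.sign σ with h2 | h2
      · exact h2.2
      · linarith [h2.1]
    · intro h; rw [h1]
      rcases I.sign σ with h2 | h2
      · linarith [h2.1]
      · exact h2.2
  have key2 : ∀ σ : K →+* ℝ, ∃ σ' : K →+* ℝ, σ' I.w = σ I.w ∧ ((0 < σ p → σ' p < 0) ∧
      (σ p < 0 → 0 < σ' p)) := by
    intro σ
    have h1 := golden_real hp σ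
    refine ⟨σ.comp ψ.toRingHom, ?_, ?_, ?_⟩
    · change σ (ψ I.w) = _; rw [hψw]
    · intro h
      change σ (ψ p) < 0
      rw [hψp, map_sub, map_one]
      nlinarith
    · intro h
      change 0 < σ (ψ p)
      rw [hψp, map_sub, map_one]
      nlinarith
  obtain ⟨σ1, h1⟩ := I.exists_pos
  have hne : σ1 p ≠ 0 := by
    intro h
    have := golden_real hp σ1
    rw [h] at this; norm_num at this
  obtain ⟨σ2, h2w, h2a, h2b⟩ := key2 σ1
  rcases lt_or_gt_of_ne hne with hneg | hpos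
  · obtain ⟨σ3, h3, h3a, -⟩ := key σ1
    obtain ⟨σ4, h4, h4a, -⟩ := key σ2
    exact ⟨⟨σ2, h2b hneg, by rw [h2w]; exact h1⟩,
      ⟨σ4, by rw [h4]; exact h2b hneg, h4a (by rw [h2w]; exact h1)⟩,
      ⟨σ1, hneg, h1⟩, ⟨σ3, by rw [h3]; exact hneg, h3a h1⟩⟩
  · obtain ⟨σ3, h3, h3a, -⟩ := key σ1
    obtain ⟨σ4, h4, h4a, -⟩ := key σ2
    exact ⟨⟨σ1, hpos, h1⟩, ⟨σ3, by rw [h3]; exact hpos, h3a h1⟩,
      ⟨σ2, h2a hpos, by rw [h2w]; exact h1⟩,
      ⟨σ4, by rw [h4]; exact h2a hpos, h4a (by rw [h2w]; exact h1)⟩⟩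

omit [NumberField K] [IsTotallyReal K] in
theorem sq_cases {a b : K} (h : a ^ 2 = b ^ 2) : a = b ∨ a = -b := sq_eq_sq_iff_eq_or_eq_neg.mp h

theorem golden_PP {p : K} (hτp : I.τ p = p) (hp : p ^ 2 = p + 1)
    (ψ : K ≃+* K) (hψp : ψ p = 1 - p) (hψw : ψ I.w = I.w)
    (hθ : ∀ x : K, x ^ 2 ≠ 2 + p) {r : ℤ} (hr : 1 ≤ r)
    (hhalf : ∀ σ : K →+* ℝ, σ I.w < 0 → 2 * (1 + r * σ I.w) < 1)
    (h1c : I.c = 1 → 3 ≤ I.t ∧ 2 * r = I.t + 1) (hodd : Odd I.t) :
    PP ((2 + p) * (1 + r * I.w)) := by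
  intro γ hγ hd
  obtain ⟨g0, g1, i0, i1, f0, f1, rfl⟩ := I.decomp γ hγ
  have hred := I.reduce (A := 2 + p) (by rw [map_add, hτp, map_ofNat]) f0 f1 hd
  have hc : (1 : ℝ) ≤ I.c := by exact_mod_cast I.hc
  obtain ⟨⟨σ1, h1p, h1w⟩, ⟨σ2, h2p, h2w⟩, ⟨σ3, h3p, h3w⟩, ⟨σ4, h4p, h4w⟩⟩ :=
    exists_signs I hτp hp ψ hψp hψw
  have d0 : Dom g0 (2 + p) := fun σ => by
    have := hred σ
    nlinarith [sq_nonneg (σ g1)]
  have d1 : Dom g1 (2 + p) := fun σ => by
    have := hred σ
    nlinarith [sq_nonneg (σ g1), sq_nonneg (σ g0)]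
  have k0 : g0 ^ 2 = 0 ∨ g0 ^ 2 = 1 ∨ g0 ^ 2 = p ^ 2 := by
    rcases golden_class hp i0 d0 with h | h | h | h
    · exact Or.inl h
    · exact Or.inr (Or.inl h)
    · exact Or.inr (Or.inr h)
    · exact absurd h (hθ _)
  have k1 : g1 ^ 2 = 0 ∨ g1 ^ 2 = 1 ∨ g1 ^ 2 = p ^ 2 := by
    rcases golden_class hp i1 d1 with h | h | h | h
    · exact Or.inl h
    · exact Or.inr (Or.inl h)
    · exact Or.inr (Or.inr h)
    · exact absurd h (hθ _)
  have hdv : ∀ σ : K →+* ℝ, (σ g0 + σ g1 * σ I.w) ^ 2 ≤ (2 + σ p) * (1 + r * σ I.w) := by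
    intro σ
    have := hd σ
    simp only [map_add, map_mul, map_one, map_intCast, map_ofNat] at this
    exact this
  -- numerical bounds for the two values of `p`
  have bpos : ∀ σ : K →+* ℝ, 0 < σ p → 1.6 < σ p ∧ σ p < 1.62 := by
    intro σ h
    have := golden_real hp σ
    constructor <;> nlinarith
  have bneg : ∀ σ : K →+* ℝ, σ p < 0 → -0.62 < σ p ∧ σ p < -0.6 := by
    intro σ h
    have := golden_real hp σ
    constructor <;> nlinarith
  -- irrationality of `p`
  have irr : ∀ a b : ℤ, (a : K) + b * p = 0 → a = 0 ∧ b = 0 := by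
    intro a b h
    have h2 : (a : K) + b * (1 - p) = 0 := by
      have := congrArg ψ h
      simpa [hψp] using this
    have h3 : (b : K) * (2 * p - 1) = 0 := by linear_combination h - h2
    have h4 : (2 * p - 1 : K) ≠ 0 := by
      intro h5
      have h6 : (2 * p - 1 : K) ^ 2 = 5 := by linear_combination 4 * hp
      rw [h5] at h6
      norm_num at h6
    have h5 : (b : K) = 0 := (mul_eq_zero.mp h3).resolve_right h4
    have h6 : b = 0 := by exact_mod_cast h5
    refine ⟨?_, h6⟩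
    rw [h6] at h
    simpa using h
  by_cases hz1 : g1 = 0
  · subst hz1
    rcases k0 with h | h | h
    · have : g0 = 0 := pow_eq_zero_iff two_ne_zero |>.mp h
      rw [this]; ring
    · exfalso
      have e1 := hdv σ4
      have e2 := hhalf σ4 h4w
      have e3 : σ4 g0 ^ 2 = 1 := by rw [← map_pow, h, map_one]
      rw [map_zero, zero_mul, add_zero, e3] at e1
      have := bneg σ4 h4p
      nlinarith
    · exfalso
      have e1 := hdv σ2
      have e2 := hhalf σ2 h2w
      have e3 : σ2 g0 ^ 2 = σ2 p ^ 2 := by rw [← map_pow, h, map_pow]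
      rw [map_zero, zero_mul, add_zero, e3, golden_real hp σ2] at e1
      nlinarith
  exfalso
  have hr1 : (1 : ℝ) ≤ r := by exact_mod_cast hr
  have k1' : g1 ^ 2 = 1 ∨ g1 ^ 2 = p ^ 2 := by
    rcases k1 with h | h | h
    · exact absurd (pow_eq_zero_iff two_ne_zero |>.mp h) hz1
    · exact Or.inl h
    · exact Or.inr h
  have hc1 : I.c = 1 := by
    have : (I.c : ℝ) < 2 := by
      rcases k1' with h | h
      · have e1 := hred σ3
        rw [← map_pow σ3 g1, h, map_one, map_add, map_ofNat] at e1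
        nlinarith [sq_nonneg (σ3 g0)]
      · have e1 := hred σ1
        rw [← map_pow σ1 g1, h, map_pow, golden_real hp σ1, map_add, map_ofNat] at e1
        nlinarith [sq_nonneg (σ1 g0), bpos σ1 h1p]
    have h2 : I.c < 2 := by exact_mod_cast this
    have := I.hc
    omega
  obtain ⟨ht3, h2r⟩ := h1c hc1
  have ht3' : (3 : ℝ) ≤ I.t := by exact_mod_cast ht3
  have h2r' : 2 * (r : ℝ) = I.t + 1 := by exact_mod_cast h2r
  have hww : I.w ^ 2 = I.t * I.w + 1 := by
    have := I.hw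
    rw [hc1] at this
    push_cast at this
    exact this
  have hwr : ∀ σ : K →+* ℝ, σ I.w ^ 2 = I.t * σ I.w + 1 := by
    intro σ
    have := congrArg σ hww
    simpa using this
  have hWt : ∀ σ : K →+* ℝ, 0 < σ I.w → 3 < σ I.w := by
    intro σ h
    have := hwr σ
    nlinarith
  -- the equality type argument
  have eqarg : g0 ^ 2 + g1 ^ 2 = 2 + p → 2 * g0 * g1 + I.t * g1 ^ 2 = (2 + p) * r := by
    intro h
    set D : K := 2 * g0 * g1 + I.t * g1 ^ 2 - (2 + p) * r with hD
    have hDf : I.τ D = D := by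
      rw [hD]
      simp only [map_sub, map_add, map_mul, map_pow, map_ofNat, map_intCast, f0, f1, hτp]
    have h3 : (g0 + g1 * I.w) ^ 2 = (2 + p) * (1 + r * I.w) + D * I.w := by
      rw [hD]
      linear_combination h + g1 ^ 2 * hww
    have h4 : ∀ σ : K →+* ℝ, σ D * σ I.w ≤ 0 := by
      intro σ
      have := hd σ
      rw [← map_pow, h3, map_add, map_mul σ D] at this
      linarith
    have h5 : σ1 D = 0 := by
      obtain ⟨σ', h6, -⟩ := I.flip σ1
      have h7 : σ' D = σ1 D := by rw [h6, hDf]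
      have h8 : σ' I.w < 0 := by
        rw [h6]
        rcases I.sign σ1 with h9 | h9
        · exact h9.2
        · linarith [h9.1]
      have h9 := h4 σ1
      have h10 := h4 σ'
      rw [h7] at h10
      apply le_antisymm
      · by_contra h11
        push Not at h11
        nlinarith [mul_pos h11 h1w]
      · by_contra h11
        push Not at h11
        nlinarith [mul_pos_of_neg_of_neg h11 h8]
    have h6 : D = 0 := (map_eq_zero σ1).mp h5
    rw [hD] at h6
    linear_combination h6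
  obtain ⟨s, hs⟩ := hodd
  rcases k1' with h | h
  · -- g1 ^ 2 = 1
    rcases k0 with h0 | h0 | h0
    · have e0 : g0 = 0 := pow_eq_zero_iff two_ne_zero |>.mp h0
      have e1 := hdv σ3
      have e2 : σ3 g1 ^ 2 = 1 := by rw [← map_pow, h, map_one]
      rw [e0, map_zero, zero_add, mul_pow, e2, one_mul, hwr σ3] at e1
      have e3 := hWt σ3 h3w
      have e4 := bneg σ3 h3p
      have e5 : 0 < 1 + r * σ3 I.w := by nlinarith
      have e6 : (2 + σ3 p) * (1 + r * σ3 I.w) ≤ 1.4 * (1 + r * σ3 I.w) :=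
        mul_le_mul_of_nonneg_right (by linarith [e4.2]) e5.le
      have e7 : 1.4 * (1 + r * σ3 I.w) = 1.4 + 0.7 * ((I.t + 1) * σ3 I.w) := by
        rw [← h2r']; ring
      nlinarith
    · have e1 := hred σ3
      rw [← map_pow σ3 g1, ← map_pow σ3 g0, h, h0, map_one, map_add, map_ofNat, hc1] at e1
      push_cast at e1
      linarith
    · have hA := eqarg (by rw [h, h0, hp]; ring)
      rw [h] at hA
      have h5 : (g0 * g1) ^ 2 = p ^ 2 := by rw [mul_pow, h, h0, mul_one]
      rcases sq_cases h5 with h6 | h6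
      · have := irr (I.t - 2 * r) (2 - r) (by
          push_cast; linear_combination hA - 2 * h6)
        omega
      · have := irr (I.t - 2 * r) (-2 - r) (by
          push_cast; linear_combination hA - 2 * h6)
        omega
  · -- g1 ^ 2 = p ^ 2
    rcases k0 with h0 | h0 | h0
    · have e0 : g0 = 0 := pow_eq_zero_iff two_ne_zero |>.mp h0
      have e1 := hdv σ1
      have e2 : σ1 g1 ^ 2 = σ1 p + 1 := by rw [← map_pow, h, map_pow, golden_real hp σ1]
      rw [e0, map_zero, zero_add, mul_pow, e2, hwr σ1] at e1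
      have e3 := hWt σ1 h1w
      have e4 := bpos σ1 h1p
      have e5 : 0 < 1 + r * σ1 I.w := by nlinarith
      have e6 : (2 + σ1 p) * (1 + r * σ1 I.w) ≤ 1.4 * (σ1 p + 1) * (1 + r * σ1 I.w) :=
        mul_le_mul_of_nonneg_right (by linarith [e4.1]) e5.le
      have e8 : I.t * σ1 I.w + 1 ≤ 1.4 * (1 + r * σ1 I.w) := by
        have e9 : 0 < σ1 p + 1 := by linarith
        by_contra h11
        push Not at h11
        nlinarith [mul_lt_mul_of_pos_left h11 e9]
      have e7 : 1.4 * (1 + r * σ1 I.w) = 1.4 + 0.7 * ((I.t + 1) * σ1 I.w) := by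
        rw [← h2r']; ring
      nlinarith
    · have hA := eqarg (by rw [h, h0, hp]; ring)
      rw [h] at hA
      have h5 : (g0 * g1) ^ 2 = p ^ 2 := by rw [mul_pow, h, h0, one_mul]
      rcases sq_cases h5 with h6 | h6
      · have := irr (I.t - 2 * r) (2 + I.t - r) (by
          push_cast; linear_combination hA - 2 * h6 - I.t * hp)
        omega
      · have := irr (I.t - 2 * r) (-2 + I.t - r) (by
          push_cast; linear_combination hA - 2 * h6 - I.t * hp)
        omega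
    · have e1 := hred σ1
      rw [← map_pow σ1 g1, ← map_pow σ1 g0, h, h0, map_pow, golden_real hp σ1, map_add,
        map_ofNat, hc1] at e1
      push_cast at e1
      linarith

end Pool.Agent.Work.MP_eae946_nt
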