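import Mathlib

namespace Pool.Agent.Work.MP_eae946_nt

open IntermediateField Polynomial

variable {K : Type*} [Field K] [NumberField K] {k : ℕ}

theorem splits_sq {x : K} {a : ℤ} (h : x ^ 2 = a) :
    ((minpoly ℚ x).map (algebraMap ℚ K)).Splits := by
  have h1 : minpoly ℚ x ∣ (X ^ 2 - C (a : ℚ)) := by
    apply minpoly.dvd
    simp [h]
  have h2 : ((X ^ 2 - C (a : ℚ) : ℚ[X]).map (algebraMap ℚ K)) = (X - C x) * (X - C (-x)) := by
    simp only [Polynomial.map_sub, Polynomial.map_pow, Polynomial.map_X, Polynomial.map_C,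
      C_neg, sub_neg_eq_add]
    have h3 : (C ((algebraMap ℚ K) (a : ℚ)) : K[X]) = C x ^ 2 := by
      rw [← C_pow, h]; simp
    rw [h3]; ring
  have h4 : ((X ^ 2 - C (a : ℚ) : ℚ[X]).map (algebraMap ℚ K)).Splits := by
    rw [h2]
    exact (Splits.X_sub_C x).mul (Splits.X_sub_C (-x))
  refine h4.of_dvd ?_ (Polynomial.map_dvd _ h1)
  rw [h2]
  exact mul_ne_zero (X_sub_C_ne_zero x) (X_sub_C_ne_zero (-x))

theorem isGalois_of_sq {s : Fin k → K} {m : Fin k → ℤ} (hs : ∀ i, s i ^ 2 = m i)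
    (hgen : IntermediateField.adjoin ℚ (Set.range s) = ⊤) : IsGalois ℚ K := by
  have : Normal ℚ K := by
    rw [normal_iff]
    intro x
    refine ⟨Algebra.IsIntegral.isIntegral x, ?_⟩
    refine splits_of_mem_adjoin (S := Set.range s) (F := ℚ) (K := K) (L := K) ?_ ?_
    · rintro _ ⟨i, rfl⟩
      exact ⟨Algebra.IsIntegral.isIntegral _, splits_sq (hs i)⟩
    · rw [hgen]; exact IntermediateField.mem_top
  exact ⟨⟩

theorem aut_eq_of_gen {s : Fin k → K}
    (hgen : IntermediateField.adjoin ℚ (Set.range s) = ⊤) {τ τ' : K ≃ₐ[ℚ] K}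
    (h : ∀ i, τ (s i) = τ' (s i)) : τ = τ' := by
  have h1 : ∀ x ∈ IntermediateField.adjoin ℚ (Set.range s), τ x = τ' x := by
    intro x hx
    induction hx using IntermediateField.adjoin_induction with
    | mem x hx => obtain ⟨i, rfl⟩ := hx; exact h i
    | algebraMap x => simp
    | add x y _ _ hx hy => rw [map_add, map_add, hx, hy]
    | inv x _ hx => rw [map_inv₀, map_inv₀, hx]
    | mul x y _ _ hx hy => rw [map_mul, map_mul, hx, hy]
  ext x
  exact h1 x (by rw [hgen]; exact IntermediateField.mem_top)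

theorem aut_sq {x : K} {a : ℤ} (h : x ^ 2 = a) (τ : K ≃ₐ[ℚ] K) : τ x = x ∨ τ x = -x := by
  have : τ x ^ 2 = x ^ 2 := by rw [← map_pow, h, map_intCast]
  exact sq_eq_sq_iff_eq_or_eq_neg.mp this

theorem exists_aut {s : Fin k → K} {m : Fin k → ℤ} (hs : ∀ i, s i ^ 2 = m i)
    (hgen : IntermediateField.adjoin ℚ (Set.range s) = ⊤)
    (hdeg : Module.finrank ℚ K = 2 ^ k) (ε : Fin k → ℤˣ) :
    ∃ τ : K ≃ₐ[ℚ] K, ∀ i, τ (s i) = ((ε i : ℤ) : K) * s i := by
  classical
  have hG := isGalois_of_sq hs hgen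
  let f : (K ≃ₐ[ℚ] K) → (Fin k → ℤˣ) := fun τ i => if τ (s i) = s i then 1 else -1
  have hf : Function.Injective f := by
    intro τ τ' h
    apply aut_eq_of_gen hgen
    intro i
    have h1 := congrFun h i
    simp only [f] at h1
    by_cases h2 : τ (s i) = s i <;> by_cases h3 : τ' (s i) = s i
    · rw [h2, h3]
    · rw [if_pos h2, if_neg h3] at h1; exact absurd h1 (by decide)
    · rw [if_neg h2, if_pos h3] at h1; exact absurd h1 (by decide)
    · rw [(aut_sq (hs i) τ).resolve_left h2, (aut_sq (hs i) τ').resolve_left h3]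
  have hcard : Nat.card (K ≃ₐ[ℚ] K) = Nat.card (Fin k → ℤˣ) := by
    have : Nat.card ℤˣ = 2 := by simp
    rw [IsGalois.card_aut_eq_finrank, hdeg, Nat.card_fun, this, Nat.card_fin]
  have hbij : Function.Bijective f :=
    (Nat.bijective_iff_injective_and_card f).mpr ⟨hf, hcard⟩
  obtain ⟨τ, hτ⟩ := hbij.2 ε
  refine ⟨τ, fun i => ?_⟩
  have h1 := congrFun hτ i
  simp only [f] at h1
  by_cases h2 : τ (s i) = s i
  · rw [if_pos h2] at h1; rw [← h1, h2]; simp
  · rw [if_neg h2] at h1; rw [← h1, (aut_sq (hs i) τ).resolve_left h2]; simp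

end Pool.Agent.Work.MP_eae946_nt
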